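import Mathlib

set_option autoImplicit false

namespace Pool.Agent.H152Z.Stab

open Set Filter Topology

section Notions

variable {E : Type} [NormedAddCommGroup E] [NormedSpace ℝ E]

/-- `γ` is a solution of `x' = f x` defined for all times `t ≥ 0`. -/
def IsSolution (f : E → E) (γ : ℝ → E) : Prop :=
  ∀ t : ℝ, 0 ≤ t → HasDerivWithinAt γ (f (γ t)) (Ici 0) t

/-- The origin is Lyapunov stable: for every `ε > 0` there is `δ > 0` such that for `‖x₀‖ < δ` the
solution with initial value `x₀` is defined and of norm `< ε` for all `t ≥ 0`. -/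
def LyapunovStable (f : E → E) : Prop :=
  ∀ ε : ℝ, 0 < ε → ∃ δ : ℝ, 0 < δ ∧ ∀ x₀ : E, ‖x₀‖ < δ →
    ∃ γ : ℝ → E, γ 0 = x₀ ∧ IsSolution f γ ∧ ∀ t : ℝ, 0 ≤ t → ‖γ t‖ < ε

/-- The origin is locally asymptotically stable. -/
def LocallyAsymptoticallyStable (f : E → E) : Prop :=
  LyapunovStable f ∧ ∃ δ : ℝ, 0 < δ ∧ ∀ x₀ : E, ‖x₀‖ < δ →
    ∃ γ : ℝ → E, γ 0 = x₀ ∧ IsSolution f γ ∧ Tendsto γ atTop (𝓝 0)

/-- The origin is globally asymptotically stable. -/
def GloballyAsymptoticallyStable (f : E → E) : Prop :=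
  LyapunovStable f ∧ ∀ x₀ : E,
    ∃ γ : ℝ → E, γ 0 = x₀ ∧ IsSolution f γ ∧ Tendsto γ atTop (𝓝 0)

end Notions

/-- A term `(i, e, a, b)` stands for the monomial `a / (b + 1) * x_0 ^ e_0 * ... * x_(n-1) ^ e_(n-1)`
in the component number `i` of the vector field. -/
abbrev Term : Type := ℕ × List ℕ × ℤ × ℕ

/-- The list of terms describes a vector field on `ℝ^n` of degree at most `d` with no constant
term: component numbers are `< n`, exponent lists have length `n` and total degree in `[1, d]`. -/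
def Valid (n d : ℕ) (L : List Term) : Prop :=
  ∀ p ∈ L, p.1 < n ∧ p.2.1.length = n ∧ 1 ≤ p.2.1.sum ∧ p.2.1.sum ≤ d

/-- The polynomial vector field on Euclidean space `ℝ^n` given by a list of terms. -/
noncomputable def field (n : ℕ) (L : List Term) (x : EuclideanSpace ℝ (Fin n)) :
    EuclideanSpace ℝ (Fin n) :=
  WithLp.toLp 2 fun i : Fin n =>
    (L.map fun p : Term =>
      if p.1 = i.val then
        ((p.2.2.1 : ℝ) / ((p.2.2.2 : ℝ) + 1)) * ∏ j : Fin n, x j ^ (p.2.1.getD j.val 0)
      else 0).sum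

/-- Some algorithm, given the dimension `n` and the list of terms of a vector field on `ℝ^n` of
degree at most `d` vanishing at the origin, decides whether the field has the property `S`. -/
def DecidableIn (n d : ℕ)
    (S : (EuclideanSpace ℝ (Fin n) → EuclideanSpace ℝ (Fin n)) → Prop) : Prop :=
  ∃ A : ℕ × List Term → Bool, Computable A ∧
    ∀ L : List Term, Valid n d L → (A (n, L) = true ↔ S (field n L))

end Pool.Agent.H152Z.Stab
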