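import Mathlib
import Pool.Agent.H152Z.Stab.Defs

set_option autoImplicit false

namespace Pool.Agent.H152Z.Stab

open Set Filter Topology Real
open scoped NNReal

section Exist

variable {F : Type} [NormedAddCommGroup F] [NormedSpace ℝ F] [CompleteSpace F]

/-- Bounded Lipschitz vector fields are complete. -/
theorem exists_global_solution (W : F → F) (K L : ℝ≥0) (hK : LipschitzWith K W)
    (hL : ∀ x, ‖W x‖ ≤ L) (x₀ : F) :
    ∃ α : ℝ → F, α 0 = x₀ ∧ ∀ t, HasDerivAt α (W (α t)) t := by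
  have key : ∀ n : ℕ, ∃ α : ℝ → F, α 0 = x₀ ∧ ∀ t ∈ Ioo (-(n + 1 : ℝ)) (n + 1),
      HasDerivAt α (W (α t)) t := by
    intro n
    have h0 : (0 : ℝ) ∈ Icc (-(n + 1 : ℝ)) (n + 1) := ⟨by linarith [n.cast_nonneg (α := ℝ)],
      by positivity⟩
    have hpl : IsPicardLindelof (fun _ => W) (⟨0, h0⟩ : Icc (-(n + 1 : ℝ)) (n + 1)) x₀
        (L * (n + 1 : ℝ≥0)) 0 L K := by
      apply IsPicardLindelof.of_time_independent (fun x _ => hL x) (hK.lipschitzOnWith)
      simp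
    obtain ⟨α, h1, h2⟩ := hpl.exists_eq_forall_mem_Icc_hasDerivWithinAt₀
    refine ⟨α, h1, fun t ht => ?_⟩
    exact (h2 t (Ioo_subset_Icc_self ht)).hasDerivAt (Icc_mem_nhds ht.1 ht.2)
  choose α hα0 hα using key
  have huniq : ∀ n m : ℕ, n ≤ m → EqOn (α n) (α m) (Ioo (-(n + 1 : ℝ)) (n + 1)) := by
    intro n m hnm
    have hc : (n : ℝ) ≤ m := by exact_mod_cast hnm
    have h0 : (0 : ℝ) ∈ Ioo (-(n + 1 : ℝ)) (n + 1) := ⟨by linarith [n.cast_nonneg (α := ℝ)],
      by positivity⟩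
    refine ODE_solution_unique_of_mem_Ioo (v := fun _ => W) (s := fun _ => univ) (K := K)
      (fun t _ => hK.lipschitzOnWith) h0 (fun t ht => ⟨hα n t ht, mem_univ _⟩)
      (fun t ht => ⟨hα m t ⟨by linarith [ht.1], by linarith [ht.2]⟩, mem_univ _⟩) ?_
    rw [hα0, hα0]
  refine ⟨fun t => α ⌈|t|⌉₊ t, ?_, fun t => ?_⟩
  · simp only
    exact hα0 _
  · have hev : (fun s => α ⌈|s|⌉₊ s) =ᶠ[𝓝 t] α (⌈|t|⌉₊ + 1) := by
      have h1 : ∀ᶠ s in 𝓝 t, |s| < |t| + 1 := by
        have : Continuous fun s : ℝ => |s| := continuous_abs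
        exact this.continuousAt.eventually_lt continuousAt_const (by simp)
      filter_upwards [h1] with s hs
      have h2 : ⌈|s|⌉₊ ≤ ⌈|t|⌉₊ + 1 := by
        apply Nat.ceil_le.2
        have := Nat.le_ceil (|t|)
        push_cast
        linarith
      apply huniq _ _ h2
      have h3 := Nat.le_ceil (|s|)
      have h4 := abs_le.1 (le_refl |s|)
      constructor <;> linarith
    have h5 : HasDerivAt (α (⌈|t|⌉₊ + 1)) (W (α (⌈|t|⌉₊ + 1) t)) t := by
      apply hα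
      have h3 := Nat.le_ceil (|t|)
      have h4 := abs_le.1 (le_refl |t|)
      push_cast
      constructor <;> linarith
    have h6 := h5.congr_of_eventuallyEq hev
    have h7 : α (⌈|t|⌉₊ + 1) t = α ⌈|t|⌉₊ t := hev.self_of_nhds.symm
    rw [h7] at h6
    exact h6

end Exist

/-- a cut-off version of a smooth field has global solutions -/
theorem exists_cut {E : Type} [NormedAddCommGroup E] [NormedSpace ℝ E] [FiniteDimensional ℝ E]
    (f : E → E) (hf : ContDiff ℝ 1 f) (M : ℝ) (hM : 0 < M) (x₀ : E) :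
    ∃ (χ : E → ℝ) (α : ℝ → E), Continuous χ ∧ (∀ x, 0 ≤ χ x) ∧ (∀ x, ‖x‖ ≤ M → χ x = 1) ∧
      α 0 = x₀ ∧ ∀ t, HasDerivAt α (χ (α t) • f (α t)) t := by
  have : CompleteSpace E := FiniteDimensional.complete ℝ E
  have : ProperSpace E := FiniteDimensional.proper ℝ E
  let b : ContDiffBump (0 : E) := ⟨M, 2 * M, hM, by linarith⟩
  have hb : ContDiff ℝ 1 (fun x => b x • f x) := b.contDiff.smul hf
  have hc : HasCompactSupport (fun x => b x • f x) := b.hasCompactSupport.smul_right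
  obtain ⟨K, hK⟩ := hb.lipschitzWith_of_hasCompactSupport hc one_ne_zero
  obtain ⟨L, hL⟩ := hb.continuous.bounded_above_of_compact_support hc
  have hL0 : 0 ≤ L := (norm_nonneg _).trans (hL 0)
  obtain ⟨α, h0, h1⟩ := exists_global_solution (fun x => b x • f x) K ⟨L, hL0⟩ hK hL x₀
  refine ⟨b, α, b.continuous, fun x => b.nonneg, fun x hx => ?_, h0, h1⟩
  apply b.one_of_mem_closedBall
  simpa using hx

/-- transfer of solutions along a linear equivalence -/
theorem IsSolution.map {E E' : Type} [NormedAddCommGroup E] [NormedSpace ℝ E]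
    [NormedAddCommGroup E'] [NormedSpace ℝ E'] (A : E ≃L[ℝ] E') {f : E → E} {f' : E' → E'}
    (h : ∀ x, f' (A x) = A (f x)) {γ : ℝ → E} (hγ : IsSolution f γ) :
    IsSolution f' (fun t => A (γ t)) := by
  intro t ht
  rw [h]
  exact (A : E →L[ℝ] E').hasFDerivAt.comp_hasDerivWithinAt t (hγ t ht)

theorem LyapunovStable.map {E E' : Type} [NormedAddCommGroup E] [NormedSpace ℝ E]
    [NormedAddCommGroup E'] [NormedSpace ℝ E'] (A : E ≃L[ℝ] E') {f : E → E} {f' : E' → E'}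
    (h : ∀ x, f' (A x) = A (f x)) (hf : LyapunovStable f) : LyapunovStable f' := by
  intro ε hε
  set a := ‖(A : E →L[ℝ] E')‖ + 1 with ha
  set b := ‖(A.symm : E' →L[ℝ] E)‖ + 1 with hb
  have ha0 : 0 < a := by positivity
  have hb0 : 0 < b := by positivity
  obtain ⟨δ, hδ, hd⟩ := hf (ε / a) (by positivity)
  refine ⟨δ / b, by positivity, fun x₀ hx => ?_⟩
  have h1 : ‖A.symm x₀‖ < δ := by
    have h2 : ‖A.symm x₀‖ ≤ ‖(A.symm : E' →L[ℝ] E)‖ * ‖x₀‖ := (A.symm : E' →L[ℝ] E).le_opNorm x₀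
    have h3 : ‖x₀‖ * b < δ := by rwa [lt_div_iff₀ hb0] at hx
    nlinarith [norm_nonneg x₀]
  obtain ⟨γ, h0, hs, hb'⟩ := hd _ h1
  refine ⟨fun t => A (γ t), by simp [h0], hs.map A h, fun t ht => ?_⟩
  have h2 : ‖A (γ t)‖ ≤ ‖(A : E →L[ℝ] E')‖ * ‖γ t‖ := (A : E →L[ℝ] E').le_opNorm (γ t)
  have h3 : ‖γ t‖ * a < ε := by have := hb' t ht; rwa [lt_div_iff₀ ha0] at this
  nlinarith [norm_nonneg (γ t)]

theorem GloballyAsymptoticallyStable.map {E E' : Type} [NormedAddCommGroup E] [NormedSpace ℝ E]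
    [NormedAddCommGroup E'] [NormedSpace ℝ E'] (A : E ≃L[ℝ] E') {f : E → E} {f' : E' → E'}
    (h : ∀ x, f' (A x) = A (f x)) (hf : GloballyAsymptoticallyStable f) :
    GloballyAsymptoticallyStable f' := by
  refine ⟨hf.1.map A h, fun x₀ => ?_⟩
  obtain ⟨γ, h0, hs, hb⟩ := hf.2 (A.symm x₀)
  refine ⟨fun t => A (γ t), by simp [h0], hs.map A h, ?_⟩
  have := (A.continuous.tendsto 0).comp hb
  rw [map_zero] at this
  exact this

theorem GloballyAsymptoticallyStable.loc {E : Type} [NormedAddCommGroup E] [NormedSpace ℝ E]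
    {f : E → E} (hf : GloballyAsymptoticallyStable f) : LocallyAsymptoticallyStable f :=
  ⟨hf.1, 1, one_pos, fun x₀ _ => hf.2 x₀⟩

/-- a function with zero derivative on `[0,∞)` is constant -/
theorem const_Ici {f : ℝ → ℝ} (h : ∀ t, 0 ≤ t → HasDerivWithinAt f 0 (Ici 0) t) :
    ∀ t, 0 ≤ t → f t = f 0 := by
  intro t ht
  apply constant_of_has_deriv_right_zero (a := 0) (b := t) _ _ t ⟨ht, le_rfl⟩
  · intro s hs
    exact (h s hs.1).continuousWithinAt.mono (fun x hx => hx.1)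
  · intro s hs
    exact (h s hs.1).mono (fun x hx => hs.1.trans hx)

/-- rotation with a variable angle -/
theorem rot_var {ω : ℝ} {u v σ σ' : ℝ → ℝ} (hσ : ∀ t, HasDerivAt σ (σ' t) t) (hσ0 : σ 0 = 0)
    (hu : ∀ t, 0 ≤ t → HasDerivWithinAt u (σ' t * -(ω * v t)) (Ici 0) t)
    (hv : ∀ t, 0 ≤ t → HasDerivWithinAt v (σ' t * (ω * u t)) (Ici 0) t) :
    ∀ t, 0 ≤ t → u t = u 0 * cos (ω * σ t) - v 0 * sin (ω * σ t) ∧
      v t = u 0 * sin (ω * σ t) + v 0 * cos (ω * σ t) := by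
  have hcos : ∀ t, HasDerivWithinAt (fun t => cos (ω * σ t)) (-(ω * σ' t * sin (ω * σ t))) (Ici 0) t := by
    intro t
    refine ((hσ t).const_mul ω).cos.hasDerivWithinAt.congr_deriv ?_
    ring
  have hsin : ∀ t, HasDerivWithinAt (fun t => sin (ω * σ t)) (ω * σ' t * cos (ω * σ t)) (Ici 0) t := by
    intro t
    refine ((hσ t).const_mul ω).sin.hasDerivWithinAt.congr_deriv ?_
    ring
  have hp : ∀ t, 0 ≤ t → HasDerivWithinAt
      (fun t => u t * cos (ω * σ t) + v t * sin (ω * σ t)) 0 (Ici 0) t := by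
    intro t ht
    refine (((hu t ht).fun_mul (hcos t)).fun_add ((hv t ht).fun_mul (hsin t))).congr_deriv ?_
    ring
  have hq : ∀ t, 0 ≤ t → HasDerivWithinAt
      (fun t => v t * cos (ω * σ t) - u t * sin (ω * σ t)) 0 (Ici 0) t := by
    intro t ht
    refine (((hv t ht).fun_mul (hcos t)).fun_sub ((hu t ht).fun_mul (hsin t))).congr_deriv ?_
    ring
  intro t ht
  have h1 := const_Ici hp t ht
  have h2 := const_Ici hq t ht
  simp only [hσ0, mul_zero, cos_zero, sin_zero, mul_one, add_zero, sub_zero] at h1 h2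
  have h3 := sin_sq_add_cos_sq (ω * σ t)
  rw [← h1, ← h2]
  constructor
  · linear_combination (-(u t)) * h3
  · linear_combination (-(v t)) * h3

end Pool.Agent.H152Z.Stab
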