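import Mathlib
import Pool.Agent.H152Z.Stab.Gen
import Pool.Agent.Helper702.OdeC

set_option autoImplicit false

namespace Pool.Agent.H152Z.Stab

open Set Filter Topology Real

/-- the state variables -/
inductive V (k : ℕ) : Type
  | z | h | κ | u | v
  | y (i : Fin k) | c (i : Fin k) | s (i : Fin k)

/-- the underlying sum type -/
def V.toSum {k : ℕ} : V k → Fin 5 ⊕ (Fin k ⊕ (Fin k ⊕ Fin k))
  | .z => Sum.inl 0 | .h => Sum.inl 1 | .κ => Sum.inl 2 | .u => Sum.inl 3 | .v => Sum.inl 4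
  | .y i => Sum.inr (Sum.inl i) | .c i => Sum.inr (Sum.inr (Sum.inl i))
  | .s i => Sum.inr (Sum.inr (Sum.inr i))

theorem V.toSum_injective {k : ℕ} : Function.Injective (V.toSum (k := k)) := by
  intro a b hab
  cases a <;> cases b <;> simp_all [V.toSum]

noncomputable instance instFintypeV (k : ℕ) : Fintype (V k) :=
  Fintype.ofInjective _ V.toSum_injective

variable {k : ℕ}

/-- squared Euclidean norm -/
def R (x : V k → ℝ) : ℝ :=
  x .z ^ 2 + x .h ^ 2 + x .κ ^ 2 + x .u ^ 2 + x .v ^ 2 +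
    ∑ i, (x (.y i) ^ 2 + (x (.c i) ^ 2 + x (.s i) ^ 2))

/-- the denominator of the weight -/
def Den (x : V k → ℝ) : ℝ := x .κ ^ 2 + (x .u - x .h) ^ 2 + x .v ^ 2

/-- the driving function -/
def gg (x : V k → ℝ) : ℝ :=
  8 * x .h * ∑ i, x (.c i) - 8 * ∑ i, (x (.c i) ^ 2 + x (.s i) ^ 2)
    - (2 * (k : ℝ) - 1) * x .h ^ 2

/-- the rotation field -/
def Rot (x : V k → ℝ) : V k → ℝ
  | .z => 0 | .h => 0 | .κ => 0
  | .u => -(x .z ^ 2 * x .v)
  | .v => x .z ^ 2 * x .u
  | .y _ => 0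
  | .c i => -(x .z * x (.y i) * x (.s i))
  | .s i => x .z * x (.y i) * x (.c i)

/-- the flow of the rotation field -/
noncomputable def Φ (x : V k → ℝ) (t : ℝ) : V k → ℝ
  | .z => x .z | .h => x .h | .κ => x .κ
  | .u => x .u * cos (x .z ^ 2 * t) - x .v * sin (x .z ^ 2 * t)
  | .v => x .u * sin (x .z ^ 2 * t) + x .v * cos (x .z ^ 2 * t)
  | .y i => x (.y i)
  | .c i => x (.c i) * cos (x .z * x (.y i) * t) - x (.s i) * sin (x .z * x (.y i) * t)
  | .s i => x (.c i) * sin (x .z * x (.y i) * t) + x (.s i) * cos (x .z * x (.y i) * t)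

/-- the radial growth rate -/
def Num (N : ℕ) (H : ℝ → (Fin k → ℝ) → ℝ) (x : V k → ℝ) : ℝ :=
  x .z ^ (4 * N) * x .κ ^ 2 * gg x - 4 * H (x .z) (fun i => x (.y i)) * Den x * R x

/-- the vector field -/
def FF (N : ℕ) (H : ℝ → (Fin k → ℝ) → ℝ) (x : V k → ℝ) : V k → ℝ := fun i =>
  R x ^ (2 * N) * Den x * Rot x i + (Num N H x - R x ^ (2 * N + 3)) * x i

theorem R_nonneg (x : V k → ℝ) : 0 ≤ R x := by unfold R; positivity

theorem Den_nonneg (x : V k → ℝ) : 0 ≤ Den x := by unfold Den; positivity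

theorem sq_le_R (x : V k → ℝ) (j : V k) : x j ^ 2 ≤ R x := by
  have h0 : 0 ≤ ∑ i, (x (.y i) ^ 2 + (x (.c i) ^ 2 + x (.s i) ^ 2)) := by positivity
  have h1 : ∀ i, x (.y i) ^ 2 + (x (.c i) ^ 2 + x (.s i) ^ 2) ≤
      ∑ i, (x (.y i) ^ 2 + (x (.c i) ^ 2 + x (.s i) ^ 2)) := fun i =>
    Finset.single_le_sum (f := fun i => x (.y i) ^ 2 + (x (.c i) ^ 2 + x (.s i) ^ 2))
      (fun i _ => by positivity) (Finset.mem_univ i)
  have hz := sq_nonneg (x .z)
  have hh := sq_nonneg (x .h)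
  have hκ := sq_nonneg (x .κ)
  have hu := sq_nonneg (x .u)
  have hv := sq_nonneg (x .v)
  unfold R
  cases j with
  | z => linarith
  | h => linarith
  | κ => linarith
  | u => linarith
  | v => linarith
  | y i => have := h1 i; nlinarith [sq_nonneg (x (.c i)), sq_nonneg (x (.s i))]
  | c i => have := h1 i; nlinarith [sq_nonneg (x (.y i)), sq_nonneg (x (.s i))]
  | s i => have := h1 i; nlinarith [sq_nonneg (x (.c i)), sq_nonneg (x (.y i))]

theorem norm_sq_le_R (x : V k → ℝ) : ‖x‖ ≤ √(R x) := by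
  rw [pi_norm_le_iff_of_nonneg (Real.sqrt_nonneg _)]
  intro j
  rw [Real.norm_eq_abs]
  exact Real.abs_le_sqrt (sq_le_R x j)

theorem R_le_norm (x : V k → ℝ) : R x ≤ (5 + 3 * k) * ‖x‖ ^ 2 := by
  have h : ∀ j, x j ^ 2 ≤ ‖x‖ ^ 2 := by
    intro j
    have := norm_le_pi_norm x j
    rw [Real.norm_eq_abs] at this
    rw [← sq_abs]
    exact pow_le_pow_left₀ (abs_nonneg _) this 2
  have h1 : ∑ i, (x (.y i) ^ 2 + (x (.c i) ^ 2 + x (.s i) ^ 2)) ≤ ∑ _i : Fin k, 3 * ‖x‖ ^ 2 := by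
    apply Finset.sum_le_sum
    intro i _
    linarith [h (.y i), h (.c i), h (.s i)]
  rw [Finset.sum_const, Finset.card_univ, Fintype.card_fin, nsmul_eq_mul] at h1
  unfold R
  linarith [h .z, h .h, h .κ, h .u, h .v]

theorem R_smul (r : ℝ) (x : V k → ℝ) : R (fun i => r * x i) = r ^ 2 * R x := by
  unfold R
  simp only [mul_pow, mul_add, Finset.mul_sum]

theorem Den_smul (r : ℝ) (x : V k → ℝ) : Den (fun i => r * x i) = r ^ 2 * Den x := by
  unfold Den; ring

theorem gg_smul (r : ℝ) (x : V k → ℝ) : gg (fun i => r * x i) = r ^ 2 * gg x := by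
  unfold gg
  have h1 : ∑ i, r * x (.c i) = r * ∑ i, x (.c i) := by rw [Finset.mul_sum]
  have h2 : ∑ i, ((r * x (.c i)) ^ 2 + (r * x (.s i)) ^ 2) =
      r ^ 2 * ∑ i, (x (.c i) ^ 2 + x (.s i) ^ 2) := by
    rw [Finset.mul_sum]; apply Finset.sum_congr rfl; intro i _; ring
  rw [h1, h2]; ring

theorem Num_smul (N : ℕ) (H : ℝ → (Fin k → ℝ) → ℝ)
    (hH : ∀ (r z : ℝ) (y : Fin k → ℝ), 0 < r → H (r * z) (fun i => r * y i) = r ^ (4 * N) * H z y)
    (r : ℝ) (hr : 0 < r) (x : V k → ℝ) :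
    Num N H (fun i => r * x i) = r ^ (4 * N + 4) * Num N H x := by
  unfold Num
  rw [R_smul, Den_smul, gg_smul, hH r _ _ hr]
  ring

theorem R_Φ (x : V k → ℝ) (t : ℝ) : R (Φ x t) = R x := by
  unfold R
  simp only [Φ]
  have h1 := sin_sq_add_cos_sq (x .z ^ 2 * t)
  have h2 : ∑ i, (x (.y i) ^ 2 + ((x (.c i) * cos (x .z * x (.y i) * t) - x (.s i) * sin (x .z * x (.y i) * t)) ^ 2 +
      (x (.c i) * sin (x .z * x (.y i) * t) + x (.s i) * cos (x .z * x (.y i) * t)) ^ 2)) =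
      ∑ i, (x (.y i) ^ 2 + (x (.c i) ^ 2 + x (.s i) ^ 2)) := by
    apply Finset.sum_congr rfl
    intro i _
    have h3 := sin_sq_add_cos_sq (x .z * x (.y i) * t)
    linear_combination (x (.c i) ^ 2 + x (.s i) ^ 2) * h3
  rw [h2]
  linear_combination (x .u ^ 2 + x .v ^ 2) * h1

theorem continuous_Φ (x : V k → ℝ) : Continuous (Φ x) := by
  apply continuous_pi
  intro j
  cases j <;> simp only [Φ] <;> fun_prop

theorem continuous_R : Continuous (R : (V k → ℝ) → ℝ) := by unfold R; fun_prop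

theorem continuous_Den : Continuous (Den : (V k → ℝ) → ℝ) := by unfold Den; fun_prop

theorem continuous_gg : Continuous (gg : (V k → ℝ) → ℝ) := by unfold gg; fun_prop

/-- explicit form of the solutions of `x' = φ Rot x + a x` -/
theorem explicit {γ : ℝ → V k → ℝ} {φ a : ℝ → ℝ} (hφ : Continuous φ) (ha : Continuous a)
    (hγ : ∀ t, 0 ≤ t → ∀ i, HasDerivWithinAt (fun t => γ t i)
      (φ t * Rot (γ t) i + a t * γ t i) (Ici 0) t)
    {ρ0 : ℝ} (hρ0 : 0 < ρ0) {ξ : V k → ℝ} (h0 : ∀ i, γ 0 i = ρ0 * ξ i) :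
    ∀ t, 0 ≤ t → γ t = fun i => (ρ0 * Real.exp (∫ s in (0 : ℝ)..t, a s)) *
      Φ ξ (∫ s in (0 : ℝ)..t, φ s * (ρ0 * Real.exp (∫ r in (0 : ℝ)..s, a r)) ^ 2) i := by
  set ρ : ℝ → ℝ := fun t => ρ0 * Real.exp (∫ s in (0 : ℝ)..t, a s) with hρ
  have hI : ∀ t, HasDerivAt (fun t => ∫ s in (0 : ℝ)..t, a s) (a t) t := fun t =>
    (ha.integral_hasStrictDerivAt 0 t).hasDerivAt
  have hρd : ∀ t, HasDerivAt ρ (a t * ρ t) t := by
    intro t
    refine ((hI t).exp.const_mul ρ0).congr_deriv ?_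
    simp only [hρ]; ring
  have hρc : Continuous ρ := continuous_iff_continuousAt.2 fun t => (hρd t).continuousAt
  have hρp : ∀ t, 0 < ρ t := fun t => by simp only [hρ]; positivity
  have hρ00 : ρ 0 = ρ0 := by simp [hρ]
  set σ' : ℝ → ℝ := fun s => φ s * ρ s ^ 2 with hσ'
  have hσ'c : Continuous σ' := hφ.mul (hρc.pow 2)
  set σ : ℝ → ℝ := fun t => ∫ s in (0 : ℝ)..t, σ' s with hσ
  have hσd : ∀ t, HasDerivAt σ (σ' t) t := fun t => (hσ'c.integral_hasStrictDerivAt 0 t).hasDerivAt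
  have hσ0 : σ 0 = 0 := by simp [hσ]
  set w : ℝ → V k → ℝ := fun t i => γ t i / ρ t with hw
  have hw0 : ∀ i, w 0 i = ξ i := by
    intro i; simp only [hw, h0, hρ00]; field_simp
  have hwd : ∀ t, 0 ≤ t → ∀ i, HasDerivWithinAt (fun t => w t i) (σ' t * Rot (w t) i) (Ici 0) t := by
    intro t ht i
    have h1 := (hγ t ht i).fun_div (hρd t).hasDerivWithinAt (hρp t).ne'
    refine h1.congr_deriv ?_
    have hne := (hρp t).ne'
    cases i <;> simp only [Rot, hw, hσ'] <;> field_simp <;> ring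
  have ez : ∀ t, 0 ≤ t → w t .z = ξ .z := by
    intro t ht
    rw [← hw0]
    exact const_Ici (f := fun t => w t .z) (fun t ht => by simpa [Rot] using hwd t ht .z) t ht
  have eh : ∀ t, 0 ≤ t → w t .h = ξ .h := by
    intro t ht
    rw [← hw0]
    exact const_Ici (f := fun t => w t .h) (fun t ht => by simpa [Rot] using hwd t ht .h) t ht
  have eκ : ∀ t, 0 ≤ t → w t .κ = ξ .κ := by
    intro t ht
    rw [← hw0]
    exact const_Ici (f := fun t => w t .κ) (fun t ht => by simpa [Rot] using hwd t ht .κ) t ht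
  have ey : ∀ i t, 0 ≤ t → w t (.y i) = ξ (.y i) := by
    intro i t ht
    rw [← hw0]
    exact const_Ici (f := fun t => w t (.y i))
      (fun t ht => by simpa [Rot] using hwd t ht (.y i)) t ht
  have euv := rot_var (ω := ξ .z ^ 2) (u := fun t => w t .u) (v := fun t => w t .v) hσd hσ0
    (fun t ht => by have := hwd t ht .u; simp only [Rot, ez t ht] at this; exact this)
    (fun t ht => by have := hwd t ht .v; simp only [Rot, ez t ht] at this; exact this)
  have ecs := fun i => rot_var (ω := ξ .z * ξ (.y i)) (u := fun t => w t (.c i))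
    (v := fun t => w t (.s i)) hσd hσ0
    (fun t ht => by have := hwd t ht (.c i); simp only [Rot, ez t ht, ey i t ht] at this; exact this)
    (fun t ht => by have := hwd t ht (.s i); simp only [Rot, ez t ht, ey i t ht] at this; exact this)
  intro t ht
  funext i
  have h1 : γ t i = ρ t * w t i := by
    simp only [hw]; have := (hρp t).ne'; field_simp
  have h2 : w t i = Φ ξ (σ t) i := by
    cases i with
    | z => exact ez t ht
    | h => exact eh t ht
    | κ => exact eκ t ht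
    | u => simp only [Φ, ← hw0]; have := (euv t ht).1; simp only [← hw0] at this; exact this
    | v => simp only [Φ, ← hw0]; have := (euv t ht).2; simp only [← hw0] at this; exact this
    | y i => exact ey i t ht
    | c i => simp only [Φ, ← hw0]; have := (ecs i t ht).1; simp only [← hw0] at this; exact this
    | s i => simp only [Φ, ← hw0]; have := (ecs i t ht).2; simp only [← hw0] at this; exact this
  rw [h1, h2]

end Pool.Agent.H152Z.Stab
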