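import Mathlib
import Pool.Agent.H152Z.Stab.Core

set_option autoImplicit false

namespace Pool.Agent.H152Z.Stab

open Set Filter Topology Real

variable {k : ℕ}

theorem continuous_Num (N : ℕ) (H : ℝ → (Fin k → ℝ) → ℝ)
    (hHc : Continuous fun x : V k → ℝ => H (x .z) (fun i => x (.y i))) :
    Continuous (Num N H : (V k → ℝ) → ℝ) := by
  unfold Num
  have h1 := continuous_gg (k := k)
  have h2 := continuous_Den (k := k)
  have h3 := continuous_R (k := k)
  apply Continuous.sub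
  · exact (((continuous_apply V.z).pow _).mul ((continuous_apply V.κ).pow _)).mul h1
  · exact ((continuous_const.mul hHc).mul h2).mul h3

/-- polar form of the solutions of the (time changed) equation -/
theorem orbit (N : ℕ) (H : ℝ → (Fin k → ℝ) → ℝ)
    (hHc : Continuous fun x : V k → ℝ => H (x .z) (fun i => x (.y i)))
    {γ : ℝ → V k → ℝ} {ψ : ℝ → ℝ} (hγc : Continuous γ) (hψ : Continuous ψ)
    (hγ : ∀ t, 0 ≤ t → HasDerivWithinAt γ (ψ t • FF N H (γ t)) (Ici 0) t)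
    {ρ0 : ℝ} (hρ0 : 0 < ρ0) {ξ : V k → ℝ} (h0 : ∀ i, γ 0 i = ρ0 * ξ i) :
    ∃ ρ σ σ' : ℝ → ℝ, (∀ t, 0 < ρ t) ∧
      (∀ t, ρ t = ρ0 * Real.exp ((∫ s in (0 : ℝ)..t, ψ s * Num N H (γ s)) -
        ∫ s in (0 : ℝ)..t, ψ s * R (γ s) ^ (2 * N + 3))) ∧
      Continuous σ' ∧ (∀ t, σ t = ∫ s in (0 : ℝ)..t, σ' s) ∧
      (∀ t, 0 ≤ t → γ t = fun i => ρ t * Φ ξ (σ t) i) ∧
      (∀ t, 0 ≤ t → σ' t = ψ t * (R ξ ^ (2 * N) * ρ t ^ (4 * N + 4) * Den (Φ ξ (σ t)))) := by
  have hNc := (continuous_Num N H hHc).comp hγc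
  have hRc := (continuous_R (k := k)).comp hγc
  have hDc := (continuous_Den (k := k)).comp hγc
  set a : ℝ → ℝ := fun t => ψ t * (Num N H (γ t) - R (γ t) ^ (2 * N + 3)) with ha
  set φ : ℝ → ℝ := fun t => ψ t * (R (γ t) ^ (2 * N) * Den (γ t)) with hφ
  have hac : Continuous a := hψ.mul (hNc.sub (hRc.pow _))
  have hφc : Continuous φ := hψ.mul ((hRc.pow _).mul hDc)
  have hd : ∀ t, 0 ≤ t → ∀ i, HasDerivWithinAt (fun t => γ t i)
      (φ t * Rot (γ t) i + a t * γ t i) (Ici 0) t := by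
    intro t ht i
    refine ((hasDerivWithinAt_pi.1 (hγ t ht)) i).congr_deriv ?_
    simp only [Pi.smul_apply, smul_eq_mul, FF, ha, hφ]
    ring
  have hex := explicit hφc hac hd hρ0 h0
  set ρ : ℝ → ℝ := fun t => ρ0 * Real.exp (∫ s in (0 : ℝ)..t, a s) with hρ
  have hρc : Continuous ρ := by
    apply continuous_const.mul
    apply Real.continuous_exp.comp
    exact continuous_iff_continuousAt.2 fun t =>
      (hac.integral_hasStrictDerivAt 0 t).hasDerivAt.continuousAt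
  have hρp : ∀ t, 0 < ρ t := fun t => by simp only [hρ]; positivity
  refine ⟨ρ, fun t => ∫ s in (0 : ℝ)..t, φ s * ρ s ^ 2, fun s => φ s * ρ s ^ 2, hρp, ?_,
    hφc.mul (hρc.pow 2), fun t => rfl, hex, ?_⟩
  · intro t
    simp only [hρ]
    congr 2
    have c1 : Continuous fun s => ψ s * Num N H (γ s) := hψ.mul hNc
    have c2 : Continuous fun s => ψ s * R (γ s) ^ (2 * N + 3) := hψ.mul (hRc.pow _)
    rw [← intervalIntegral.integral_sub (c1.intervalIntegrable _ _) (c2.intervalIntegrable _ _)]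
    apply intervalIntegral.integral_congr
    intro s _
    simp only [ha]
    ring
  · intro t ht
    have h1 := hex t ht
    simp only [hφ]
    have h2 : γ t = fun i => ρ t * Φ ξ (∫ s in (0 : ℝ)..t, φ s * ρ s ^ 2) i := h1
    rw [h2, R_smul, Den_smul, R_Φ]
    ring

/-- change of time in the integral of the growth rate -/
theorem integral_Num (N : ℕ) (H : ℝ → (Fin k → ℝ) → ℝ)
    (hHc : Continuous fun x : V k → ℝ => H (x .z) (fun i => x (.y i)))
    (hH : ∀ (r z : ℝ) (y : Fin k → ℝ), 0 < r → H (r * z) (fun i => r * y i) = r ^ (4 * N) * H z y)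
    {γ : ℝ → V k → ℝ} {ψ ρ σ σ' : ℝ → ℝ} {ξ : V k → ℝ} (hκ : ξ .κ ≠ 0)
    (hρp : ∀ t, 0 < ρ t) (hσ'c : Continuous σ') (hσ : ∀ t, σ t = ∫ s in (0 : ℝ)..t, σ' s)
    (hγ : ∀ t, 0 ≤ t → γ t = fun i => ρ t * Φ ξ (σ t) i)
    (hσ' : ∀ t, 0 ≤ t → σ' t = ψ t * (R ξ ^ (2 * N) * ρ t ^ (4 * N + 4) * Den (Φ ξ (σ t))))
    (t : ℝ) (ht : 0 ≤ t) :
    ∫ s in (0 : ℝ)..t, ψ s * Num N H (γ s) =
      ∫ s in (0 : ℝ)..(σ t), Num N H (Φ ξ s) / (R ξ ^ (2 * N) * Den (Φ ξ s)) := by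
  have hR : 0 < R ξ := lt_of_lt_of_le (by positivity) (sq_le_R ξ .κ)
  have hD : ∀ s, 0 < Den (Φ ξ s) := by
    intro s
    unfold Den
    have : 0 < Φ ξ s .κ ^ 2 := by simp only [Φ]; positivity
    positivity
  have hfc : Continuous fun s => Num N H (Φ ξ s) / (R ξ ^ (2 * N) * Den (Φ ξ s)) := by
    apply Continuous.div
    · exact (continuous_Num N H hHc).comp (continuous_Φ ξ)
    · exact continuous_const.mul (continuous_Den.comp (continuous_Φ ξ))
    · intro s; have := hD s; positivity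
  have hσe : σ = fun t => ∫ s in (0 : ℝ)..t, σ' s := funext hσ
  have hσd : ∀ t, HasDerivAt σ (σ' t) t := fun t => by
    rw [hσe]; exact (hσ'c.integral_hasStrictDerivAt 0 t).hasDerivAt
  have hσ0 : σ 0 = 0 := by rw [hσ]; simp
  have h1 := intervalIntegral.integral_comp_mul_deriv (a := 0) (b := t) (f := σ) (f' := σ')
    (g := fun s => Num N H (Φ ξ s) / (R ξ ^ (2 * N) * Den (Φ ξ s)))
    (fun s _ => hσd s) hσ'c.continuousOn hfc
  rw [hσ0] at h1
  rw [← h1]
  apply intervalIntegral.integral_congr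
  intro s hs
  have hs0 : 0 ≤ s := by
    rw [uIcc_of_le ht] at hs; exact hs.1
  simp only [Function.comp]
  rw [hσ' s hs0, hγ s hs0, Num_smul N H hH _ (hρp s)]
  have := (hD (σ s)).ne'
  have := hR.ne'
  field_simp

end Pool.Agent.H152Z.Stab
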