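import Mathlib
import Pool.Agent.H152Z.Stab.Orbit

set_option autoImplicit false

namespace Pool.Agent.H152Z.Stab

open Set Filter Topology Real

variable {k : ℕ}

/-- the hypotheses linking `H` with the polynomial function `p` -/
structure Hom (N : ℕ) (p : (Fin k → ℝ) → ℝ) (H : ℝ → (Fin k → ℝ) → ℝ) : Prop where
  ne : ∀ z y, z ≠ 0 → H z y = z ^ (4 * N) * p (fun i => y i / z)
  zero : ∀ y, H 0 y = 0
  smooth : ContDiff ℝ 1 fun x : V k → ℝ => H (x .z) (fun i => x (.y i))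

theorem Hom.smul {N : ℕ} {p : (Fin k → ℝ) → ℝ} {H : ℝ → (Fin k → ℝ) → ℝ} (h : Hom N p H)
    (r z : ℝ) (y : Fin k → ℝ) (hr : 0 < r) :
    H (r * z) (fun i => r * y i) = r ^ (4 * N) * H z y := by
  by_cases hz : z = 0
  · simp [hz, h.zero]
  · rw [h.ne _ _ (mul_ne_zero hr.ne' hz), h.ne _ _ hz]
    have : (fun i => r * y i / (r * z)) = fun i => y i / z := by
      funext i; field_simp
    rw [this, mul_pow]; ring

theorem Hom.nonneg {N : ℕ} {p : (Fin k → ℝ) → ℝ} {H : ℝ → (Fin k → ℝ) → ℝ} (h : Hom N p H)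
    (hp0 : ∀ x, 0 ≤ p x) (z : ℝ) (y : Fin k → ℝ) : 0 ≤ H z y := by
  by_cases hz : z = 0
  · simp [hz, h.zero]
  · rw [h.ne _ _ hz]
    have : (0 : ℝ) ≤ z ^ (4 * N) := by
      rw [show 4 * N = 2 * (2 * N) by ring]; exact (even_two_mul _).pow_nonneg z
    exact mul_nonneg this (hp0 _)

/-- the hypotheses on `p` in the case without integer root -/
structure NoRoot (N : ℕ) (p : (Fin k → ℝ) → ℝ) (Cp : ℝ) (D : ℕ) : Prop where
  nonneg : ∀ x, 0 ≤ p x
  pos : 0 < Cp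
  lip : ∀ (x : Fin k → ℝ) (n : Fin k → ℤ), (∀ i, |x i - n i| ≤ 1 / 2) →
      |p x - p (fun i => (n i : ℝ))| ≤ Cp * (1 + ‖x‖) ^ D * ‖x - fun i => (n i : ℝ)‖
  int : ∀ n : Fin k → ℤ, 1 ≤ p (fun i => (n i : ℝ))
  deg : D + 1 ≤ 2 * N

theorem flow_bound {N : ℕ} {p : (Fin k → ℝ) → ℝ} {H : ℝ → (Fin k → ℝ) → ℝ} (h : Hom N p H)
    {Cp : ℝ} {D : ℕ} (hp : NoRoot N p Cp D) {ξ : V k → ℝ} (hR : R ξ = 1) (hz : ξ .z ≠ 0)
    (hκ : ξ .κ ≠ 0) (t : ℝ) (ht : 0 ≤ t) :
    ∫ s in (0 : ℝ)..t, Num N H (Φ ξ s) / (R ξ ^ (2 * N) * Den (Φ ξ s)) ≤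
      64 * π * (1 + Cp * 2 ^ D) := by
  have hb : ∀ j, |ξ j| ≤ 1 := by
    intro j
    have := sq_le_R ξ j
    rw [hR] at this
    exact (sq_le_one_iff_abs_le_one _).1 this
  have hD : ∀ s, 0 < Den (Φ ξ s) := by
    intro s
    unfold Den
    have : 0 < Φ ξ s .κ ^ 2 := by simp only [Φ]; positivity
    positivity
  have hz2 : ξ .z ^ 2 ≠ 0 := pow_ne_zero _ hz
  have hz2p : 0 < ξ .z ^ 2 := by positivity
  set W : ℝ → ℝ := fun s => ξ .κ ^ 2 / Den (Φ ξ s) with hW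
  have hWc : Continuous W :=
    continuous_const.div (continuous_Den.comp (continuous_Φ ξ)) (fun s => (hD s).ne')
  have hW0 : ∀ s, 0 ≤ W s := fun s => div_nonneg (sq_nonneg _) (hD s).le
  have hW2 : ∀ s, W s ≤ 2 := by
    intro s
    simp only [hW]
    rw [div_le_iff₀ (hD s)]
    have : ξ .κ ^ 2 ≤ Den (Φ ξ s) := by
      unfold Den
      simp only [Φ]
      nlinarith [sq_nonneg (ξ .u * cos (ξ .z ^ 2 * s) - ξ .v * sin (ξ .z ^ 2 * s) - ξ .h),
        sq_nonneg (ξ .u * sin (ξ .z ^ 2 * s) + ξ .v * cos (ξ .z ^ 2 * s))]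
    linarith [hD s]
  have hWp : ∀ s, W (s + 2 * π / |ξ .z ^ 2|) = W s := by
    intro s
    have e : ξ .z ^ 2 * (s + 2 * π / |ξ .z ^ 2|) = ξ .z ^ 2 * s + 2 * π := by
      rw [abs_of_pos hz2p]; field_simp
    simp only [hW, Den, Φ, e, Real.sin_add_two_pi, Real.cos_add_two_pi]
  have hgb := Pool.Agent.Helper702.growth_bound p hp.nonneg Cp hp.pos D N hp.lip hp.int hp.deg
    (ξ .z ^ 2) (ξ .h) (fun i => ξ .z * ξ (.y i)) (fun i => ξ (.c i)) (fun i => ξ (.s i)) hz2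
    (by rw [abs_pow]; exact pow_le_one₀ (abs_nonneg _) (hb _)) (hb _)
    (fun i => by rw [abs_mul]; exact mul_le_one₀ (hb _) (abs_nonneg _) (hb _))
    (fun i => hb _) (fun i => hb _) W hWc hW0 hW2 hWp t ht
  refine le_trans (le_of_eq ?_) hgb
  apply intervalIntegral.integral_congr
  intro s _
  simp only
  have e1 : (fun i => ξ .z * ξ (.y i) / ξ .z ^ 2) = fun i => ξ (.y i) / ξ .z := by
    funext i; field_simp
  have e2 : ∑ i, (Φ ξ s (.c i) ^ 2 + Φ ξ s (.s i) ^ 2) = ∑ i, (ξ (.c i) ^ 2 + ξ (.s i) ^ 2) := by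
    apply Finset.sum_congr rfl
    intro i _
    simp only [Φ]
    have h3 := sin_sq_add_cos_sq (ξ .z * ξ (.y i) * s)
    linear_combination (ξ (.c i) ^ 2 + ξ (.s i) ^ 2) * h3
  have e3 : gg (Φ ξ s) = 8 * ξ .h * ∑ i, (ξ (.c i) * cos (ξ .z * ξ (.y i) * s) -
      ξ (.s i) * sin (ξ .z * ξ (.y i) * s)) - 8 * ∑ i, (ξ (.c i) ^ 2 + ξ (.s i) ^ 2) -
      (2 * (Fintype.card (Fin k) : ℝ) - 1) * ξ .h ^ 2 := by
    unfold gg
    rw [e2, Fintype.card_fin]
    rfl
  rw [e1, ← e3]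
  unfold Num
  rw [R_Φ, hR]
  have e4 : Φ ξ s .z = ξ .z := rfl
  have e5 : Φ ξ s .κ = ξ .κ := rfl
  have e6 : (fun i => Φ ξ s (.y i)) = fun i => ξ (.y i) := rfl
  rw [e4, e5, e6, h.ne _ _ hz]
  simp only [hW]
  have := (hD s).ne'
  rw [← pow_mul, show 2 * (2 * N) = 4 * N by ring, one_pow]
  field_simp

/-- uniform bound for the integral of the growth rate along any solution -/
theorem growth_le {N : ℕ} {p : (Fin k → ℝ) → ℝ} {H : ℝ → (Fin k → ℝ) → ℝ} (h : Hom N p H)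
    {Cp : ℝ} {D : ℕ} (hp : NoRoot N p Cp D)
    {γ : ℝ → V k → ℝ} {ψ : ℝ → ℝ} (hγc : Continuous γ) (hψ : Continuous ψ) (hψ0 : ∀ t, 0 ≤ ψ t)
    (hγ : ∀ t, 0 ≤ t → HasDerivWithinAt γ (ψ t • FF N H (γ t)) (Ici 0) t) (t : ℝ) (ht : 0 ≤ t) :
    ∫ s in (0 : ℝ)..t, ψ s * Num N H (γ s) ≤ 64 * π * (1 + Cp * 2 ^ D) := by
  have hHc := h.smooth.continuous
  have hM : (0 : ℝ) ≤ 64 * π * (1 + Cp * 2 ^ D) := by have := hp.pos; positivity
  by_cases hdeg : γ 0 .z = 0 ∨ γ 0 .κ = 0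
  · obtain ⟨ρ, σ, σ', -, -, -, -, h5, -⟩ := orbit N H hHc hγc hψ hγ one_pos (ξ := γ 0) (by simp)
    refine le_trans ?_ hM
    rw [← neg_nonneg, ← intervalIntegral.integral_neg]
    apply intervalIntegral.integral_nonneg ht
    intro s hs
    rw [neg_nonneg]
    apply mul_nonpos_of_nonneg_of_nonpos (hψ0 s)
    have hN : 4 * N ≠ 0 := by have := hp.deg; omega
    have hrest : 0 ≤ 4 * H (γ s .z) (fun i => γ s (.y i)) * Den (γ s) * R (γ s) := by
      have := h.nonneg hp.nonneg (γ s .z) (fun i => γ s (.y i))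
      have := Den_nonneg (γ s)
      have := R_nonneg (γ s)
      positivity
    unfold Num
    rcases hdeg with h0 | h0
    · have : γ s .z = 0 := by rw [h5 s hs.1]; simp [Φ, h0]
      rw [this] at hrest ⊢
      rw [zero_pow hN]
      linarith
    · have : γ s .κ = 0 := by rw [h5 s hs.1]; simp [Φ, h0]
      rw [this]
      linarith
  · push Not at hdeg
    obtain ⟨hz, hκ⟩ := hdeg
    have hR : 0 < R (γ 0) := lt_of_lt_of_le (by positivity) (sq_le_R (γ 0) .κ)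
    set ρ0 := √(R (γ 0)) with hρ0
    have hρ0p : 0 < ρ0 := Real.sqrt_pos.2 hR
    set ξ : V k → ℝ := fun i => ρ0⁻¹ * γ 0 i with hξ
    have hRξ : R ξ = 1 := by
      rw [hξ, R_smul, inv_pow, hρ0, Real.sq_sqrt hR.le]
      field_simp
    have h0 : ∀ i, γ 0 i = ρ0 * ξ i := by
      intro i; simp only [hξ]; field_simp
    have hξz : ξ .z ≠ 0 := mul_ne_zero (inv_ne_zero hρ0p.ne') hz
    have hξκ : ξ .κ ≠ 0 := mul_ne_zero (inv_ne_zero hρ0p.ne') hκ
    obtain ⟨ρ, σ, σ', h1, -, h3, h4, h5, h6⟩ := orbit N H hHc hγc hψ hγ hρ0p h0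
    rw [integral_Num N H hHc h.smul hξκ h1 h3 h4 h5 h6 t ht]
    apply flow_bound h hp hRξ hξz hξκ
    rw [h4]
    apply intervalIntegral.integral_nonneg ht
    intro s hs
    rw [h6 s hs.1]
    have := hψ0 s
    have := R_nonneg ξ
    have := (h1 s).le
    have := Den_nonneg (Φ ξ (σ s))
    positivity

/-- the radius along any solution -/
theorem radius_le {N : ℕ} {p : (Fin k → ℝ) → ℝ} {H : ℝ → (Fin k → ℝ) → ℝ} (h : Hom N p H)
    {Cp : ℝ} {D : ℕ} (hp : NoRoot N p Cp D)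
    {γ : ℝ → V k → ℝ} {ψ : ℝ → ℝ} (hγc : Continuous γ) (hψ : Continuous ψ) (hψ0 : ∀ t, 0 ≤ ψ t)
    (hγ : ∀ t, 0 ≤ t → HasDerivWithinAt γ (ψ t • FF N H (γ t)) (Ici 0) t) (t : ℝ) (ht : 0 ≤ t) :
    R (γ t) ≤ R (γ 0) * Real.exp (64 * π * (1 + Cp * 2 ^ D) -
      ∫ s in (0 : ℝ)..t, ψ s * R (γ s) ^ (2 * N + 3)) ^ 2 := by
  obtain ⟨ρ, σ, σ', h1, h2, -, -, h5, -⟩ :=
    orbit N H h.smooth.continuous hγc hψ hγ one_pos (ξ := γ 0) (by simp)
  have e : R (γ t) = ρ t ^ 2 * R (γ 0) := by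
    conv_lhs => rw [h5 t ht]
    rw [R_smul, R_Φ]
  rw [e, mul_comm, h2, one_mul]
  apply mul_le_mul_of_nonneg_left _ (R_nonneg _)
  apply pow_le_pow_left₀ (Real.exp_pos _).le
  apply Real.exp_le_exp.2
  have := growth_le h hp hγc hψ hψ0 hγ t ht
  linarith

theorem contDiff_FF {N : ℕ} {p : (Fin k → ℝ) → ℝ} {H : ℝ → (Fin k → ℝ) → ℝ} (h : Hom N p H) :
    ContDiff ℝ 1 (FF N H) := by
  have hR : ContDiff ℝ 1 (R : (V k → ℝ) → ℝ) := by unfold R; fun_prop
  have hD : ContDiff ℝ 1 (Den : (V k → ℝ) → ℝ) := by unfold Den; fun_prop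
  have hg : ContDiff ℝ 1 (gg : (V k → ℝ) → ℝ) := by unfold gg; fun_prop
  have hN : ContDiff ℝ 1 (Num N H) := by
    unfold Num
    apply ContDiff.sub
    · exact ContDiff.mul (by fun_prop) hg
    · exact ((contDiff_const.mul h.smooth).mul hD).mul hR
  rw [contDiff_pi]
  intro i
  unfold FF
  apply ContDiff.add
  · apply ContDiff.mul ((hR.pow _).mul hD)
    cases i <;> simp only [Rot] <;> fun_prop
  · exact (hN.sub (hR.pow _)).mul (by fun_prop)

theorem gas {N : ℕ} {p : (Fin k → ℝ) → ℝ} {H : ℝ → (Fin k → ℝ) → ℝ} (h : Hom N p H)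
    {Cp : ℝ} {D : ℕ} (hp : NoRoot N p Cp D) : GloballyAsymptoticallyStable (FF N H) := by
  set C := 64 * π * (1 + Cp * 2 ^ D) with hC
  set M := Real.exp C with hM
  have hMp : 0 < M := Real.exp_pos _
  -- bound without the damping term
  have hbd : ∀ {γ : ℝ → V k → ℝ} {ψ : ℝ → ℝ}, Continuous γ → Continuous ψ → (∀ t, 0 ≤ ψ t) →
      (∀ t, 0 ≤ t → HasDerivWithinAt γ (ψ t • FF N H (γ t)) (Ici 0) t) → ∀ t, 0 ≤ t →
      R (γ t) ≤ R (γ 0) * M ^ 2 := by
    intro γ ψ hγc hψ hψ0 hγ t ht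
    refine (radius_le h hp hγc hψ hψ0 hγ t ht).trans ?_
    apply mul_le_mul_of_nonneg_left _ (R_nonneg _)
    apply pow_le_pow_left₀ (Real.exp_pos _).le
    apply Real.exp_le_exp.2
    have : 0 ≤ ∫ s in (0 : ℝ)..t, ψ s * R (γ s) ^ (2 * N + 3) := by
      apply intervalIntegral.integral_nonneg ht
      intro s _
      have := hψ0 s
      have := R_nonneg (γ s)
      positivity
    linarith
  -- global existence
  have hex : ∀ x₀ : V k → ℝ, ∃ γ : ℝ → V k → ℝ, γ 0 = x₀ ∧ Continuous γ ∧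
      ∀ t, 0 ≤ t → HasDerivAt γ (FF N H (γ t)) t := by
    intro x₀
    obtain ⟨χ, α, hχc, hχ0, hχ1, h0, hα⟩ :=
      exists_cut (FF N H) (contDiff_FF h) (√(R x₀ * M ^ 2) + 1) (by positivity) x₀
    have hαc : Continuous α := continuous_iff_continuousAt.2 fun t => (hα t).continuousAt
    refine ⟨α, h0, hαc, fun t ht => ?_⟩
    have h1 := hbd hαc (hχc.comp hαc) (fun t => hχ0 _) (fun t _ => (hα t).hasDerivWithinAt) t ht
    rw [h0] at h1
    have h2 : ‖α t‖ ≤ √(R x₀ * M ^ 2) + 1 := by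
      have := (norm_sq_le_R (α t)).trans (Real.sqrt_le_sqrt h1)
      linarith
    have h3 := hα t
    rwa [hχ1 _ h2, one_smul] at h3
  have hone : ∀ {γ : ℝ → V k → ℝ}, (∀ t, 0 ≤ t → HasDerivAt γ (FF N H (γ t)) t) →
      ∀ t, 0 ≤ t → HasDerivWithinAt γ ((fun _ : ℝ => (1 : ℝ)) t • FF N H (γ t)) (Ici 0) t := by
    intro γ hγ t ht
    simpa using (hγ t ht).hasDerivWithinAt
  constructor
  · intro ε hε
    have hk : (0 : ℝ) < 5 + 3 * k := by positivity
    refine ⟨ε / (√(5 + 3 * k) * M), by positivity, fun x₀ hx => ?_⟩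
    obtain ⟨γ, h0, hγc, hγ⟩ := hex x₀
    refine ⟨γ, h0, fun t ht => (hγ t ht).hasDerivWithinAt, fun t ht => ?_⟩
    have h1 := hbd hγc continuous_const (fun _ => zero_le_one) (hone hγ) t ht
    rw [h0] at h1
    have h2 : R (γ t) ≤ (√(5 + 3 * k) * M * ‖x₀‖) ^ 2 := by
      refine h1.trans ?_
      rw [mul_pow, mul_pow, Real.sq_sqrt hk.le]
      have := R_le_norm x₀
      nlinarith [sq_nonneg M]
    have h3 : ‖γ t‖ ≤ √(5 + 3 * k) * M * ‖x₀‖ := by
      refine (norm_sq_le_R (γ t)).trans ?_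
      rw [Real.sqrt_le_left (by positivity)]
      exact h2
    rw [lt_div_iff₀ (by positivity)] at hx
    linarith
  · intro x₀
    obtain ⟨γ, h0, hγc, hγ⟩ := hex x₀
    refine ⟨γ, h0, fun t ht => (hγ t ht).hasDerivWithinAt, ?_⟩
    -- the radius becomes small
    have hsmall : ∀ η : ℝ, 0 < η → ∃ t0, 0 ≤ t0 ∧ R (γ t0) ≤ η := by
      intro η hη
      by_contra hcon
      push Not at hcon
      have hb : 0 < η ^ (2 * N + 3) := by positivity
      have hR0 : 0 < R (γ 0) := hη.trans (hcon 0 le_rfl)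
      set T := (|C| + R (γ 0) / η) / η ^ (2 * N + 3) with hT
      have hT0 : 0 ≤ T := by positivity
      have h1 := radius_le h hp hγc continuous_const (fun _ => zero_le_one) (hone hγ) T hT0
      have h2 : η ^ (2 * N + 3) * T ≤ ∫ s in (0 : ℝ)..T, (1 : ℝ) * R (γ s) ^ (2 * N + 3) := by
        have c1 : Continuous fun s => (1 : ℝ) * R (γ s) ^ (2 * N + 3) :=
          continuous_const.mul ((continuous_R.comp hγc).pow _)
        calc η ^ (2 * N + 3) * T = ∫ _s in (0 : ℝ)..T, η ^ (2 * N + 3) := by simp [mul_comm]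
          _ ≤ _ := by
            apply intervalIntegral.integral_mono_on hT0 (continuous_const.intervalIntegrable _ _)
              (c1.intervalIntegrable _ _)
            intro s hs
            rw [one_mul]
            exact pow_le_pow_left₀ hη.le (hcon s hs.1).le _
      have h3 : η ^ (2 * N + 3) * T = |C| + R (γ 0) / η := by rw [hT]; field_simp
      set I := ∫ s in (0 : ℝ)..T, (1 : ℝ) * R (γ s) ^ (2 * N + 3) with hI
      have h4 : C - I ≤ -(R (γ 0) / η) := by linarith [le_abs_self C]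
      have hq : 0 < R (γ 0) / η := by positivity
      have h5 : Real.exp (C - I) ≤ η / R (γ 0) := by
        refine (Real.exp_le_exp.2 h4).trans ?_
        rw [Real.exp_neg, inv_le_comm₀ (Real.exp_pos _) (by positivity), inv_div]
        linarith [Real.add_one_le_exp (R (γ 0) / η)]
      have h6 : Real.exp (C - I) ≤ 1 := Real.exp_le_one_iff.2 (by linarith)
      have h7 : Real.exp (C - I) ^ 2 ≤ η / R (γ 0) := by
        nlinarith [Real.exp_pos (C - I)]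
      have h8 : R (γ 0) * Real.exp (C - I) ^ 2 ≤ η := by
        calc _ ≤ R (γ 0) * (η / R (γ 0)) := by gcongr
          _ = η := by field_simp
      linarith [hcon T hT0]
    rw [Metric.tendsto_atTop]
    intro ε hε
    obtain ⟨t0, ht0, hR⟩ := hsmall ((ε / 2 / M) ^ 2) (by positivity)
    refine ⟨t0, fun t ht => ?_⟩
    have hsh : ∀ s, 0 ≤ s → HasDerivAt (fun s => γ (t0 + s)) (FF N H (γ (t0 + s))) s :=
      fun s hs => (hγ (t0 + s) (by linarith)).comp_const_add t0 s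
    have h1 := hbd (γ := fun s => γ (t0 + s)) (hγc.comp (by fun_prop)) continuous_const
      (fun _ => zero_le_one) (hone hsh) (t - t0) (by linarith)
    simp only [add_sub_cancel, add_zero] at h1
    have h2 : R (γ t) ≤ (ε / 2) ^ 2 := by
      calc R (γ t) ≤ (ε / 2 / M) ^ 2 * M ^ 2 := h1.trans (by gcongr)
        _ = _ := by field_simp
    have h3 : ‖γ t‖ ≤ ε / 2 := by
      refine (norm_sq_le_R (γ t)).trans ?_
      rw [Real.sqrt_le_left (by positivity)]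
      exact h2
    rw [dist_zero_right]
    linarith

end Pool.Agent.H152Z.Stab
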