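import Mathlib
import Pool.Agent.H152Z.Stab.Stable

set_option autoImplicit false

namespace Pool.Agent.H152Z.Stab

open Set Filter Topology Real

variable {k : ℕ}

theorem abs_sin_nat_mul (m : ℕ) (x : ℝ) : |sin (m * x)| ≤ m * |sin x| := by
  induction m with
  | zero => simp
  | succ m ih =>
    have : ((m + 1 : ℕ) : ℝ) * x = m * x + x := by push_cast; ring
    rw [this, sin_add]
    have h1 := abs_cos_le_one x
    have h2 := abs_cos_le_one (m * x)
    calc |sin (m * x) * cos x + cos (m * x) * sin x|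
        ≤ |sin (m * x) * cos x| + |cos (m * x) * sin x| := abs_add_le _ _
      _ = |sin (m * x)| * |cos x| + |cos (m * x)| * |sin x| := by rw [abs_mul, abs_mul]
      _ ≤ |sin (m * x)| * 1 + 1 * |sin x| := by gcongr
      _ ≤ _ := by push_cast; linarith

theorem one_sub_cos_int_mul (n : ℤ) (x : ℝ) : 1 - cos (n * x) ≤ (n : ℝ) ^ 2 * (1 - cos x) := by
  have h1 : ∀ y : ℝ, 1 - cos y = 2 * sin (y / 2) ^ 2 := by
    intro y
    have := cos_two_mul (y / 2)
    rw [show 2 * (y / 2) = y by ring] at this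
    nlinarith [sin_sq_add_cos_sq (y / 2)]
  have h2 : cos (n * x) = cos ((n.natAbs : ℝ) * x) := by
    rw [Nat.cast_natAbs, Int.cast_abs]
    rcases abs_choice (n : ℝ) with h | h
    · rw [h]
    · rw [h, neg_mul, cos_neg]
  have h3 : (n : ℝ) ^ 2 = (n.natAbs : ℝ) ^ 2 := by
    rw [Nat.cast_natAbs, Int.cast_abs, sq_abs]
  rw [h2, h3, h1, h1 x, show (n.natAbs : ℝ) * x / 2 = n.natAbs * (x / 2) by ring]
  have h4 := abs_sin_nat_mul n.natAbs (x / 2)
  have h5 := pow_le_pow_left₀ (abs_nonneg _) h4 2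
  rw [mul_pow, sq_abs, sq_abs] at h5
  linarith

theorem integral_weight {κ : ℝ} (hκ : 0 < κ) (hκ1 : κ ≤ 1) (t : ℝ) (ht : 0 ≤ t) :
    κ / (4 * π) * t - κ / 2 ≤ ∫ s in (0 : ℝ)..t, κ ^ 2 / (κ ^ 2 + 2 * (1 - cos s)) := by
  have hpi := Real.pi_gt_three
  set W : ℝ → ℝ := fun s => κ ^ 2 / (κ ^ 2 + 2 * (1 - cos s)) with hW
  have hD : ∀ s, 0 < κ ^ 2 + 2 * (1 - cos s) := by
    intro s; have := cos_le_one s; have : 0 < κ ^ 2 := by positivity
    linarith
  have hWc : Continuous W := continuous_const.div (by fun_prop) (fun s => (hD s).ne')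
  have hW0 : ∀ s, 0 ≤ W s := fun s => div_nonneg (sq_nonneg _) (hD s).le
  have hWp : Function.Periodic W (2 * π) := by
    intro s; simp only [hW, Real.cos_add_two_pi]
  have hone : κ / 2 ≤ ∫ s in (0 : ℝ)..(2 * π), W s := by
    calc κ / 2 = ∫ _s in (0 : ℝ)..κ, (1 / 2 : ℝ) := by simp; ring
      _ ≤ ∫ s in (0 : ℝ)..κ, W s := by
        apply intervalIntegral.integral_mono_on hκ.le (continuous_const.intervalIntegrable _ _)
          (hWc.intervalIntegrable _ _)
        intro s hs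
        simp only [hW]
        rw [le_div_iff₀ (hD s)]
        have h1 := Real.one_sub_sq_div_two_le_cos (x := s)
        have h2 : s ^ 2 ≤ κ ^ 2 := pow_le_pow_left₀ hs.1 hs.2 2
        linarith
      _ ≤ _ := by
        apply intervalIntegral.integral_mono_interval le_rfl hκ.le (by linarith)
        · exact Filter.Eventually.of_forall hW0
        · exact hWc.intervalIntegrable _ _
  set m := ⌊t / (2 * π)⌋₊ with hm
  have hm1 : (m : ℝ) * (2 * π) ≤ t := by
    have := Nat.floor_le (a := t / (2 * π)) (by positivity)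
    rwa [le_div_iff₀ (by positivity)] at this
  have hm2 : t / (2 * π) < m + 1 := Nat.lt_floor_add_one _
  have hper : ∫ s in (0 : ℝ)..(m * (2 * π)), W s = m * ∫ s in (0 : ℝ)..(2 * π), W s := by
    have := hWp.intervalIntegral_add_zsmul_eq (m : ℤ) 0 (fun a b => hWc.intervalIntegrable a b)
    simpa using this
  calc κ / (4 * π) * t - κ / 2 = (t / (2 * π) - 1) * (κ / 2) := by field_simp; ring
    _ ≤ m * (κ / 2) := by gcongr; linarith
    _ ≤ m * ∫ s in (0 : ℝ)..(2 * π), W s := by gcongr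
    _ = _ := hper.symm
    _ ≤ _ := by
      apply intervalIntegral.integral_mono_interval le_rfl (by positivity) hm1
      · exact Filter.Eventually.of_forall hW0
      · exact hWc.intervalIntegrable _ _

/-- the resonant direction -/
noncomputable def res (n : Fin k → ℤ) (κ : ℝ) : V k → ℝ
  | .z => 1 | .h => 1 | .κ => κ | .u => 1 | .v => 0
  | .y i => n i | .c _ => 1 / 2 | .s _ => 0

theorem Den_res (n : Fin k → ℤ) (κ s : ℝ) : Den (Φ (res n κ) s) = κ ^ 2 + 2 * (1 - cos s) := by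
  unfold Den
  simp only [Φ, res]
  have := sin_sq_add_cos_sq s
  simp only [one_pow, one_mul, zero_mul, sub_zero, add_zero]
  linear_combination this

theorem gg_res (n : Fin k → ℤ) (κ s : ℝ) :
    1 - 4 * (∑ i, (n i : ℝ) ^ 2) * (1 - cos s) ≤ gg (Φ (res n κ) s) := by
  unfold gg
  simp only [Φ, res]
  simp only [one_pow, one_mul, zero_mul, sub_zero, add_zero, mul_one]
  have e2 : ∑ i : Fin k, ((1 / 2 * cos (n i * s)) ^ 2 + (1 / 2 * sin (n i * s)) ^ 2) = (k : ℝ) / 4 := by
    have : ∀ i : Fin k, (1 / 2 * cos (n i * s)) ^ 2 + (1 / 2 * sin (n i * s)) ^ 2 = (1 / 4 : ℝ) := by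
      intro i
      have := sin_sq_add_cos_sq (n i * s)
      linear_combination (1 / 4) * this
    simp only [this]
    simp; ring
  have e3 : ∑ i : Fin k, (1 / 2 - 1 / 2 * ((n i : ℝ) ^ 2 * (1 - cos s))) ≤
      ∑ i : Fin k, 1 / 2 * cos (n i * s) := by
    apply Finset.sum_le_sum
    intro i _
    linarith [one_sub_cos_int_mul (n i) s]
  rw [Finset.sum_sub_distrib, ← Finset.mul_sum, ← Finset.sum_mul] at e3
  simp only [Finset.sum_const, Finset.card_univ, Fintype.card_fin, nsmul_eq_mul] at e3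
  rw [e2]
  linarith

theorem not_lyapunov {N : ℕ} {p : (Fin k → ℝ) → ℝ} {H : ℝ → (Fin k → ℝ) → ℝ} (h : Hom N p H)
    (n : Fin k → ℤ) (hn : p (fun i => (n i : ℝ)) = 0) : ¬ LyapunovStable (FF N H) := by
  intro hL
  have hpi := Real.pi_gt_three
  have hHc := h.smooth.continuous
  set S : ℝ := ∑ i, (n i : ℝ) ^ 2 with hS
  have hS0 : 0 ≤ S := by positivity
  set κ : ℝ := 1 / (16 * π * (S + 1)) with hκ
  have hκ0 : 0 < κ := by positivity
  have hκ1 : κ ≤ 1 := by
    rw [hκ, div_le_one (by positivity)]; nlinarith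
  have hκS : 2 * S * κ ^ 2 ≤ κ / (8 * π) := by
    have h1 : κ * (16 * π * (S + 1)) = 1 := by rw [hκ]; field_simp
    rw [le_div_iff₀ (by positivity)]
    have h2 : 2 * S * κ ^ 2 * (8 * π) = κ * (κ * (16 * π * S)) := by ring
    have h3 : κ * (16 * π * S) ≤ 1 := by
      rw [← h1]; gcongr; linarith
    rw [h2]
    nlinarith
  set ξ := res n κ with hξ
  have hξκ : ξ .κ ≠ 0 := hκ0.ne'
  set Q := R ξ with hQ
  have hQ1 : 1 ≤ Q := by
    have := sq_le_R ξ .z
    simpa [hξ, res] using this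
  have hQ0 : 0 < Q := by linarith
  have hD : ∀ s, 0 < κ ^ 2 + 2 * (1 - cos s) := by
    intro s; have := cos_le_one s; have : 0 < κ ^ 2 := by positivity
    linarith
  -- mean growth along the resonant orbit
  have hmean : ∀ t, 0 ≤ t → (κ / (8 * π) * t - κ / 2) / Q ^ (2 * N) ≤
      ∫ s in (0 : ℝ)..t, Num N H (Φ ξ s) / (R ξ ^ (2 * N) * Den (Φ ξ s)) := by
    intro t ht
    have hWc : Continuous fun s => κ ^ 2 / (κ ^ 2 + 2 * (1 - cos s)) :=
      continuous_const.div (by fun_prop) (fun s => (hD s).ne')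
    have hfc : Continuous fun s => Num N H (Φ ξ s) / (R ξ ^ (2 * N) * Den (Φ ξ s)) := by
      apply Continuous.div
      · exact (continuous_Num N H hHc).comp (continuous_Φ ξ)
      · exact continuous_const.mul (continuous_Den.comp (continuous_Φ ξ))
      · intro s; rw [hξ, Den_res]; have := hD s; positivity
    have hlc : Continuous fun s => (κ ^ 2 / (κ ^ 2 + 2 * (1 - cos s)) - 2 * S * κ ^ 2) / Q ^ (2 * N) :=
      (hWc.sub continuous_const).div_const _
    calc (κ / (8 * π) * t - κ / 2) / Q ^ (2 * N)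
        ≤ ((∫ s in (0 : ℝ)..t, κ ^ 2 / (κ ^ 2 + 2 * (1 - cos s))) - 2 * S * κ ^ 2 * t) / Q ^ (2 * N) := by
          gcongr ?_ / _
          have h1 := integral_weight hκ0 hκ1 t ht
          have h2 : 2 * S * κ ^ 2 * t ≤ κ / (8 * π) * t := by gcongr
          have h3 : κ / (4 * π) * t = 2 * (κ / (8 * π) * t) := by field_simp; ring
          linarith
      _ = ∫ s in (0 : ℝ)..t, (κ ^ 2 / (κ ^ 2 + 2 * (1 - cos s)) - 2 * S * κ ^ 2) / Q ^ (2 * N) := by
          rw [intervalIntegral.integral_div, intervalIntegral.integral_sub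
            (hWc.intervalIntegrable _ _) (continuous_const.intervalIntegrable _ _),
            intervalIntegral.integral_const, sub_zero, smul_eq_mul, mul_comm t]
      _ ≤ _ := by
          apply intervalIntegral.integral_mono_on ht (hlc.intervalIntegrable _ _)
            (hfc.intervalIntegrable _ _)
          intro s _
          have e1 : Num N H (Φ ξ s) = κ ^ 2 * gg (Φ ξ s) := by
            unfold Num
            have e4 : Φ ξ s .z = 1 := rfl
            have e5 : Φ ξ s .κ = κ := rfl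
            have e6 : (fun i => Φ ξ s (.y i)) = fun i => (n i : ℝ) := rfl
            rw [e4, e5, e6, h.ne _ _ one_ne_zero]
            simp [hn]
          rw [e1, hξ, Den_res, ← hξ, ← hQ, mul_comm (Q ^ (2 * N)), ← div_div]
          gcongr ?_ / _
          have h1 := gg_res n κ s
          rw [← hξ, ← hS] at h1
          have h2 := hD s
          rw [le_div_iff₀ h2, sub_mul, div_mul_cancel₀ _ h2.ne']
          have h3 : 0 < κ ^ 2 := by positivity
          have h4 : κ ^ 2 * (1 - 4 * S * (1 - cos s)) ≤ κ ^ 2 * gg (Φ ξ s) := by gcongr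
          nlinarith [mul_nonneg hS0 (mul_nonneg h3.le h3.le)]
  set r : ℝ := κ / (8 * π) / Q ^ (2 * N) with hr
  have hr0 : 0 < r := by positivity
  set K : ℝ := κ / 2 / Q ^ (2 * N) with hK
  -- the size of the neighbourhood
  set ε : ℝ := √(r / 2 * κ ^ 2 / Q ^ 3) with hε
  have hε0 : 0 < ε := Real.sqrt_pos.2 (by positivity)
  have hε2 : ε ^ 2 = r / 2 * κ ^ 2 / Q ^ 3 := Real.sq_sqrt (by positivity)
  obtain ⟨δ, hδ, hd⟩ := hL ε hε0
  set ρ0 : ℝ := δ / (‖ξ‖ + 1) with hρ0
  have hρ0p : 0 < ρ0 := by positivity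
  obtain ⟨γ, hγ0, hγs, hγb⟩ := hd (ρ0 • ξ) (by
    rw [norm_smul, Real.norm_eq_abs, abs_of_pos hρ0p, hρ0, div_mul_eq_mul_div,
      div_lt_iff₀ (by positivity)]
    nlinarith [norm_nonneg ξ])
  set γ' : ℝ → V k → ℝ := fun t => γ (max t 0) with hγ'
  have hγγ : ∀ t, 0 ≤ t → γ' t = γ t := fun t ht => by simp only [hγ', max_eq_left ht]
  have hγc : Continuous γ' := by
    have h1 : ContinuousOn γ (Ici 0) := fun t ht => (hγs t ht).continuousWithinAt
    exact h1.comp_continuous (by fun_prop) (fun t => mem_Ici.2 (le_max_right _ _))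
  have hγd : ∀ t, 0 ≤ t → HasDerivWithinAt γ' ((fun _ : ℝ => (1 : ℝ)) t • FF N H (γ' t)) (Ici 0) t := by
    intro t ht
    rw [hγγ t ht]
    simp only [one_smul]
    exact (hγs t ht).congr (fun s hs => hγγ s hs) (hγγ t ht)
  obtain ⟨ρ, σ, σ', h1, h2, h3, h4, h5, h6⟩ := orbit N H hHc hγc continuous_const hγd hρ0p
    (ξ := ξ) (by intro i; rw [hγγ 0 le_rfl, hγ0]; rfl)
  have hρε : ∀ t, 0 ≤ t → ρ t < ε := by
    intro t ht
    have e1 : γ' t .z = ρ t := by rw [h5 t ht]; simp [Φ, hξ, res]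
    have e2 := norm_le_pi_norm (γ' t) .z
    rw [e1, Real.norm_eq_abs, abs_of_pos (h1 t), hγγ t ht] at e2
    exact e2.trans_lt (hγb t ht)
  have hσ'l : ∀ t, 0 ≤ t → Q ^ (2 * N) * ρ t ^ (4 * N + 4) * κ ^ 2 ≤ σ' t := by
    intro t ht
    rw [h6 t ht, one_mul, hξ, Den_res, ← hξ, ← hQ]
    have := h1 t
    have := cos_le_one (σ t)
    gcongr
    linarith
  have hσ0 : ∀ t, 0 ≤ t → 0 ≤ σ t := by
    intro t ht
    rw [h4]
    apply intervalIntegral.integral_nonneg ht
    intro s hs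
    refine le_trans ?_ (hσ'l s hs.1)
    have := h1 s
    positivity
  have hdamp : ∀ t, 0 ≤ t → ∫ s in (0 : ℝ)..t, (1 : ℝ) * R (γ' s) ^ (2 * N + 3) ≤ r / 2 * σ t := by
    intro t ht
    rw [h4, ← intervalIntegral.integral_const_mul]
    have c1 : Continuous fun s => (1 : ℝ) * R (γ' s) ^ (2 * N + 3) :=
      continuous_const.mul ((continuous_R.comp hγc).pow _)
    have c2 : Continuous fun s => r / 2 * σ' s := continuous_const.mul h3
    apply intervalIntegral.integral_mono_on ht (c1.intervalIntegrable _ _) (c2.intervalIntegrable _ _)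
    intro s hs
    have e : R (γ' s) = ρ s ^ 2 * Q := by
      rw [h5 s hs.1, R_smul, R_Φ]
    have hρs := h1 s
    have e2 : ρ s ^ 2 ≤ ε ^ 2 := pow_le_pow_left₀ hρs.le (hρε s hs.1).le 2
    calc 1 * R (γ' s) ^ (2 * N + 3) = (ρ s ^ 2 * Q ^ 3) * (Q ^ (2 * N) * ρ s ^ (4 * N + 4)) := by
          rw [e]; ring
      _ ≤ (ε ^ 2 * Q ^ 3) * (Q ^ (2 * N) * ρ s ^ (4 * N + 4)) := by gcongr
      _ = r / 2 * (Q ^ (2 * N) * ρ s ^ (4 * N + 4) * κ ^ 2) := by rw [hε2]; field_simp
      _ ≤ _ := by gcongr; exact hσ'l s hs.1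
  have hlow : ∀ t, 0 ≤ t → ρ0 * Real.exp (r / 2 * σ t - K) ≤ ρ t := by
    intro t ht
    rw [h2]
    apply mul_le_mul_of_nonneg_left _ hρ0p.le
    apply Real.exp_le_exp.2
    rw [integral_Num N H hHc h.smul hξκ h1 h3 h4 h5 h6 t ht]
    have e1 := hmean (σ t) (hσ0 t ht)
    have e2 : (κ / (8 * π) * σ t - κ / 2) / Q ^ (2 * N) = r * σ t - K := by
      rw [hr, hK]; ring
    have e3 := hdamp t ht
    linarith
  set m : ℝ := ρ0 * Real.exp (-K) with hm
  have hm0 : 0 < m := by positivity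
  have hρm : ∀ t, 0 ≤ t → m ≤ ρ t := by
    intro t ht
    refine le_trans ?_ (hlow t ht)
    have := hσ0 t ht
    rw [hm]
    gcongr
    have : 0 ≤ r / 2 * σ t := by positivity
    linarith
  set c : ℝ := Q ^ (2 * N) * m ^ (4 * N + 4) * κ ^ 2 with hc
  have hc0 : 0 < c := by positivity
  have hσc : ∀ t, 0 ≤ t → c * t ≤ σ t := by
    intro t ht
    rw [h4]
    calc c * t = ∫ _s in (0 : ℝ)..t, c := by simp [mul_comm]
      _ ≤ _ := by
        apply intervalIntegral.integral_mono_on ht (continuous_const.intervalIntegrable _ _)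
          (h3.intervalIntegrable _ _)
        intro s hs
        refine le_trans ?_ (hσ'l s hs.1)
        have := hρm s hs.1
        rw [hc]
        gcongr
  have hK0 : 0 ≤ K := by positivity
  set T : ℝ := (K + ε / ρ0) / (r / 2 * c) with hT
  have hT0 : 0 ≤ T := by positivity
  have e1 : r / 2 * (c * T) = K + ε / ρ0 := by rw [hT]; field_simp
  have e2 : ε / ρ0 ≤ r / 2 * σ T - K := by
    have : r / 2 * (c * T) ≤ r / 2 * σ T := by gcongr; exact hσc T hT0
    linarith
  have e3 := Real.add_one_le_exp (r / 2 * σ T - K)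
  have e4 : ε ≤ ρ0 * Real.exp (r / 2 * σ T - K) := by
    rw [mul_comm, ← div_le_iff₀ hρ0p]; linarith
  linarith [hlow T hT0, hρε T hT0]

end Pool.Agent.H152Z.Stab
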