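import Mathlib
import Pool.Agent.H152Z.Stab.Unstable
import Pool.Agent.Helper702.PolyA

set_option autoImplicit false

namespace Pool.Agent.H152Z.Stab

open MvPolynomial Set Pool.Agent.Helper702

/-! ### lists of terms -/

/-- list of terms of a polynomial vector field with integer coefficients -/
noncomputable def termsOf {W : Type} [Fintype W] {n : ℕ} (e : W ≃ Fin n)
    (F : W → MvPolynomial W ℤ) : List Term :=
  (Finset.univ : Finset W).toList.flatMap fun i =>
    (F i).support.toList.map fun m =>
      ((e i).val, List.ofFn (fun j => m (e.symm j)), (coeff m (F i), 0))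

theorem field_append (n : ℕ) (L L' : List Term) (x : EuclideanSpace ℝ (Fin n)) (i : Fin n) :
    field n (L ++ L') x i = field n L x i + field n L' x i := by
  simp [field]

theorem field_rep (n : ℕ) (L : List Term) (x : EuclideanSpace ℝ (Fin n)) (i : Fin n) (a : ℕ) :
    field n ((List.range a).flatMap (fun _ => L)) x i = a * field n L x i := by
  induction a with
  | zero => simp [field]
  | succ a ih =>
    rw [List.range_succ, List.flatMap_append, field_append, ih]
    simp
    ring

theorem sum_flatMap_real {α : Type} (l : List α) (f : α → List ℝ) :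
    (l.flatMap f).sum = (l.map fun a => (f a).sum).sum := by
  induction l with
  | nil => simp
  | cons a l ih => simp [ih]

theorem field_termsOf {W : Type} [Fintype W] {n : ℕ} (e : W ≃ Fin n) (F : W → MvPolynomial W ℤ)
    (x : EuclideanSpace ℝ (Fin n)) (i : W) :
    field n (termsOf e F) x (e i) = aeval (fun v => x (e v)) (F i) := by
  classical
  unfold field termsOf
  simp only
  rw [List.map_flatMap, sum_flatMap_real]
  simp only [List.map_map]
  rw [Finset.sum_map_toList]
  have hinner : ∀ i' : W, ((F i').support.toList.map ((fun p : Term =>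
      if p.1 = (e i).val then
        ((p.2.2.1 : ℝ) / ((p.2.2.2 : ℝ) + 1)) * ∏ j : Fin n, x j ^ (p.2.1.getD j.val 0)
      else 0) ∘ fun m => ((e i').val, List.ofFn (fun j => m (e.symm j)), (coeff m (F i'), 0)))).sum =
      if i' = i then aeval (fun v => x (e v)) (F i) else 0 := by
    intro i'
    rw [Finset.sum_map_toList]
    by_cases hi : i' = i
    · subst hi
      simp only [if_true, Function.comp]
      rw [aeval_def, eval₂_eq']
      apply Finset.sum_congr rfl
      intro m _
      have h5 : ∏ j : Fin n, x j ^ ((List.ofFn (fun j => m (e.symm j))).getD j.val 0) =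
          ∏ v, x (e v) ^ m v := by
        rw [← Equiv.prod_comp e]
        apply Finset.prod_congr rfl
        intro v _
        congr 1
        simp
      rw [h5]
      simp
    · have : ¬ ((e i').val = (e i).val) := fun h => hi (e.injective (Fin.ext h))
      simp [hi, Function.comp, this]
  simp only [hinner]
  simp

theorem valid_termsOf {W : Type} [Fintype W] {n : ℕ} (e : W ≃ Fin n) (F : W → MvPolynomial W ℤ)
    (d : ℕ) (h0 : ∀ i, constantCoeff (F i) = 0) (hd : ∀ i, (F i).totalDegree ≤ d) :
    Valid n d (termsOf e F) := by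
  classical
  intro p hp
  unfold termsOf at hp
  simp only [List.mem_flatMap, List.mem_map, Finset.mem_toList] at hp
  obtain ⟨i, -, m, hm, rfl⟩ := hp
  have h1 : (List.ofFn (fun j => m (e.symm j))).sum = m.degree := by
    rw [List.sum_ofFn, Equiv.sum_comp e.symm (fun v => m v)]
    exact (Finsupp.degree_eq_sum m).symm
  have h3 : m.degree ≤ d := (MvPolynomial.le_totalDegree hm).trans (hd i)
  have h4 : 0 < m.degree := by
    rw [Nat.pos_iff_ne_zero]
    intro hz
    have hm0 : m = 0 := (Finsupp.degree_eq_zero_iff m).1 hz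
    rw [hm0] at hm
    have := h0 i
    rw [constantCoeff_eq] at this
    exact (mem_support_iff.1 hm) this
  refine ⟨(e i).isLt, by simp, ?_, ?_⟩
  · simp only [h1]; exact h4
  · simp only [h1]; exact h3

/-- the list attached to the parameter `a` -/
def La (L0 L1 L2 : List Term) (a : ℕ) : List Term :=
  L0 ++ ((List.range a).flatMap (fun _ => L1) ++ (List.range (a * a)).flatMap (fun _ => L2))

theorem valid_La {n d : ℕ} {L0 L1 L2 : List Term} (h0 : Valid n d L0) (h1 : Valid n d L1)
    (h2 : Valid n d L2) (a : ℕ) : Valid n d (La L0 L1 L2 a) := by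
  intro p hp
  unfold La at hp
  simp only [List.mem_append, List.mem_flatMap] at hp
  rcases hp with hp | ⟨_, _, hp⟩ | ⟨_, _, hp⟩
  · exact h0 p hp
  · exact h1 p hp
  · exact h2 p hp

theorem La_computable (L0 L1 L2 : List Term) : Computable (La L0 L1 L2) := by
  apply Primrec.to_comp
  unfold La
  refine Primrec.list_append.comp (Primrec.const _) (Primrec.list_append.comp ?_ ?_)
  · exact Primrec.list_flatMap Primrec.list_range (Primrec.const L1).to₂
  · exact Primrec.list_flatMap (Primrec.list_range.comp (Primrec.nat_mul.comp Primrec.id Primrec.id))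
      (Primrec.const L2).to₂

/-! ### the polynomial vector field -/

variable {k : ℕ}

/-- homogenised polynomial in the state variables -/
noncomputable def homP (M : ℕ) (q : MvPolynomial (Fin k) ℤ) : MvPolynomial (V k) ℤ :=
  ∑ m ∈ q.support, C (coeff m q) * (X V.z ^ (M - m.degree) * ∏ i, X (V.y i) ^ (m i))

theorem homP_eval (M : ℕ) (q : MvPolynomial (Fin k) ℤ) (x : V k → ℝ) :
    aeval x (homP M q) = hom M q (x V.z) (fun i => x (V.y i)) := by
  unfold homP hom
  simp [map_sum, map_mul, map_prod, map_pow]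

/-- polynomial form of `R` -/
noncomputable def RP (k : ℕ) : MvPolynomial (V k) ℤ :=
  X .z ^ 2 + X .h ^ 2 + X .κ ^ 2 + X .u ^ 2 + X .v ^ 2 +
    ∑ i, (X (.y i) ^ 2 + (X (.c i) ^ 2 + X (.s i) ^ 2))

/-- polynomial form of `Den` -/
noncomputable def DenP (k : ℕ) : MvPolynomial (V k) ℤ := X .κ ^ 2 + (X .u - X .h) ^ 2 + X .v ^ 2

/-- polynomial form of `gg` -/
noncomputable def ggP (k : ℕ) : MvPolynomial (V k) ℤ :=
  8 * X .h * ∑ i, X (.c i) - 8 * ∑ i, (X (.c i) ^ 2 + X (.s i) ^ 2)
    - (2 * (k : MvPolynomial (V k) ℤ) - 1) * X .h ^ 2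

/-- polynomial form of `Rot` -/
noncomputable def RotP : V k → MvPolynomial (V k) ℤ
  | .z => 0 | .h => 0 | .κ => 0
  | .u => -(X .z ^ 2 * X .v)
  | .v => X .z ^ 2 * X .u
  | .y _ => 0
  | .c i => -(X .z * X (.y i) * X (.s i))
  | .s i => X .z * X (.y i) * X (.c i)

theorem RP_eval (x : V k → ℝ) : aeval x (RP k) = R x := by
  simp [RP, R, map_sum]

theorem DenP_eval (x : V k → ℝ) : aeval x (DenP k) = Den x := by
  simp [DenP, Den]

theorem ggP_eval (x : V k → ℝ) : aeval x (ggP k) = gg x := by
  simp only [ggP, gg, map_sub, map_mul, map_pow, map_sum, map_add, aeval_X, map_ofNat, map_one,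
    map_natCast]

theorem RotP_eval (x : V k → ℝ) (i : V k) : aeval x (RotP i) = Rot x i := by
  cases i <;> simp [RotP, Rot]

/-- the fixed part of the vector field -/
noncomputable def F0 (N : ℕ) (p : MvPolynomial (Fin k) ℤ) (i : V k) : MvPolynomial (V k) ℤ :=
  RP k ^ (2 * N) * DenP k * RotP i +
    (X .z ^ (4 * N) * X .κ ^ 2 * ggP k - 4 * homP (4 * N) p * DenP k * RP k - RP k ^ (2 * N + 3)) * X i

/-- the parts proportional to `a` and `a ^ 2` -/
noncomputable def F1 (N : ℕ) (p : MvPolynomial (Fin k) ℤ) (i : V k) : MvPolynomial (V k) ℤ :=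
  -(4 * homP (4 * N) p * DenP k * RP k) * X i

theorem F0_const (N : ℕ) (p : MvPolynomial (Fin k) ℤ) (i : V k) : constantCoeff (F0 N p i) = 0 := by
  have : constantCoeff (RotP i) = 0 := by cases i <;> simp [RotP]
  simp [F0, this]

theorem F1_const (N : ℕ) (p : MvPolynomial (Fin k) ℤ) (i : V k) : constantCoeff (F1 N p i) = 0 := by
  simp [F1]

theorem hom_smooth (M : ℕ) (q : MvPolynomial (Fin k) ℤ) :
    ContDiff ℝ 1 fun x : V k → ℝ => hom M q (x .z) (fun i => x (.y i)) := by
  unfold hom
  apply ContDiff.sum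
  intro m _
  apply ContDiff.mul contDiff_const
  apply ContDiff.mul (by fun_prop)
  apply contDiff_prod
  intro i _
  fun_prop

theorem reduction {P : ℕ → Prop} (hP : REPred P) :
    ∃ (n d : ℕ) (L0 L1 L2 : List Term), (∀ a, Valid n d (La L0 L1 L2 a)) ∧
      (∀ a, ¬ P a → GloballyAsymptoticallyStable (field n (La L0 L1 L2 a))) ∧
      (∀ a, P a → ¬ LyapunovStable (field n (La L0 L1 L2 a))) := by
  classical
  obtain ⟨k, p0, p1, p2, hnn, hPk⟩ := re_mv hP
  obtain ⟨C0, D0, hC0, -, l0⟩ := mv_lip p0
  obtain ⟨C1, D1, hC1, -, l1⟩ := mv_lip p1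
  obtain ⟨C2, D2, hC2, -, l2⟩ := mv_lip p2
  set D := D0 + D1 + D2 with hD
  set N := D + p0.totalDegree + p1.totalDegree + p2.totalDegree + 1 with hN
  set e : V k ≃ Fin (Fintype.card (V k)) := Fintype.equivFin (V k) with he
  set d := (∑ i : V k, (F0 N p0 i).totalDegree) + (∑ i : V k, (F1 N p1 i).totalDegree)
    + (∑ i : V k, (F1 N p2 i).totalDegree) with hd
  have hd0 : ∀ i, (F0 N p0 i).totalDegree ≤ d := by
    intro i
    have := Finset.single_le_sum (f := fun i => (F0 N p0 i).totalDegree)
      (fun _ _ => Nat.zero_le _) (Finset.mem_univ i)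
    omega
  have hd1 : ∀ i, (F1 N p1 i).totalDegree ≤ d := by
    intro i
    have := Finset.single_le_sum (f := fun i => (F1 N p1 i).totalDegree)
      (fun _ _ => Nat.zero_le _) (Finset.mem_univ i)
    omega
  have hd2 : ∀ i, (F1 N p2 i).totalDegree ≤ d := by
    intro i
    have := Finset.single_le_sum (f := fun i => (F1 N p2 i).totalDegree)
      (fun _ _ => Nat.zero_le _) (Finset.mem_univ i)
    omega
  set n := Fintype.card (V k) with hn
  -- the linear change of coordinates
  let A : (V k → ℝ) ≃L[ℝ] EuclideanSpace ℝ (Fin n) :=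
    ((LinearEquiv.funCongrLeft ℝ ℝ e.symm).trans
      (WithLp.linearEquiv 2 ℝ (Fin n → ℝ)).symm).toContinuousLinearEquiv
  have hA : ∀ (x : V k → ℝ) (i : V k), A x (e i) = x i := by
    intro x i
    simp [A, LinearEquiv.funCongrLeft]
  -- the real functions
  let p : ℕ → (Fin k → ℝ) → ℝ := fun a x => aeval x p0 + a * aeval x p1 + (a : ℝ) ^ 2 * aeval x p2
  let H : ℕ → ℝ → (Fin k → ℝ) → ℝ := fun a z y => hom (4 * N) p0 z y + a * hom (4 * N) p1 z y
    + (a : ℝ) ^ 2 * hom (4 * N) p2 z y
  have hHom : ∀ a, Hom N (p a) (H a) := by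
    intro a
    refine ⟨?_, ?_, ?_⟩
    · intro z y hz
      simp only [H, p]
      rw [hom_eq _ p0 (by omega) z y hz, hom_eq _ p1 (by omega) z y hz,
        hom_eq _ p2 (by omega) z y hz]
      ring
    · intro y
      simp only [H]
      rw [hom_zero _ p0 (by omega), hom_zero _ p1 (by omega), hom_zero _ p2 (by omega)]
      ring
    · exact ((hom_smooth _ p0).add (contDiff_const.mul (hom_smooth _ p1))).add
        (contDiff_const.mul (hom_smooth _ p2))
  have hfield : ∀ (a : ℕ) (x : V k → ℝ),
      field n (La (termsOf e (F0 N p0)) (termsOf e (F1 N p1)) (termsOf e (F1 N p2)) a) (A x) =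
        A (FF N (H a) x) := by
    intro a x
    ext j
    obtain ⟨i, rfl⟩ := e.surjective j
    unfold La
    rw [field_append, field_append, field_rep, field_rep, field_termsOf, field_termsOf,
      field_termsOf, hA]
    have hx : (fun v => A x (e v)) = x := funext (hA x)
    rw [hx]
    simp only [F0, F1, map_sub, map_mul, map_pow, map_neg, map_add, aeval_X, homP_eval,
      map_ofNat, RP_eval, DenP_eval, ggP_eval, RotP_eval, FF, Num, H]
    push_cast
    ring
  have hcast : ∀ (a : ℕ) (n : Fin k → ℤ), p a (fun i => (n i : ℝ)) =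
      ((aeval n p0 + a * aeval n p1 + (a : ℤ) ^ 2 * aeval n p2 : ℤ) : ℝ) := by
    intro a n
    have h1 : ∀ q : MvPolynomial (Fin k) ℤ, aeval (fun i => (n i : ℝ)) q = ((aeval n q : ℤ) : ℝ) := by
      intro q
      exact aeval_algebraMap_apply ℝ n q
    simp only [p, h1]
    push_cast
    ring
  refine ⟨n, d, termsOf e (F0 N p0), termsOf e (F1 N p1), termsOf e (F1 N p2), fun a => ?_,
    fun a hPa => ?_, fun a hPa => ?_⟩
  · exact valid_La (valid_termsOf e _ d (F0_const N p0) hd0) (valid_termsOf e _ d (F1_const N p1) hd1)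
      (valid_termsOf e _ d (F1_const N p2) hd2) a
  · refine GloballyAsymptoticallyStable.map A (hfield a) ?_
    have hp0 : ∀ x, 0 ≤ p a x := fun x => hnn a x
    set Cp := C0 + a * C1 + (a : ℝ) ^ 2 * C2 with hCp
    refine gas (hHom a) (Cp := Cp) (D := D) ⟨hp0, by positivity, ?_, ?_, by omega⟩
    · intro x n hxn
      have mono : ∀ (E : ℕ), E ≤ D → (1 + ‖x‖) ^ E ≤ (1 + ‖x‖) ^ D := by
        intro E h
        apply pow_le_pow_right₀ _ h
        have := norm_nonneg x; linarith
      have e0 := (l0 x _ hxn).trans (mul_le_mul_of_nonneg_right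
        (mul_le_mul_of_nonneg_left (mono D0 (by omega)) hC0.le) (norm_nonneg _))
      have e1 := (l1 x _ hxn).trans (mul_le_mul_of_nonneg_right
        (mul_le_mul_of_nonneg_left (mono D1 (by omega)) hC1.le) (norm_nonneg _))
      have e2 := (l2 x _ hxn).trans (mul_le_mul_of_nonneg_right
        (mul_le_mul_of_nonneg_left (mono D2 (by omega)) hC2.le) (norm_nonneg _))
      set y : Fin k → ℝ := fun i => (n i : ℝ) with hy
      calc |p a x - p a y| = |(aeval x p0 - aeval y p0) + a * (aeval x p1 - aeval y p1)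
            + (a : ℝ) ^ 2 * (aeval x p2 - aeval y p2)| := by simp only [p]; congr 1; ring
        _ ≤ |(aeval x p0 - aeval y p0) + a * (aeval x p1 - aeval y p1)|
            + |(a : ℝ) ^ 2 * (aeval x p2 - aeval y p2)| := abs_add_le _ _
        _ ≤ |aeval x p0 - aeval y p0| + |a * (aeval x p1 - aeval y p1)|
            + |(a : ℝ) ^ 2 * (aeval x p2 - aeval y p2)| := by
            gcongr; exact abs_add_le _ _
        _ = |aeval x p0 - aeval y p0| + a * |aeval x p1 - aeval y p1|
            + (a : ℝ) ^ 2 * |aeval x p2 - aeval y p2| := by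
            rw [abs_mul, abs_mul, abs_of_nonneg (by positivity : (0 : ℝ) ≤ a),
              abs_of_nonneg (by positivity : (0 : ℝ) ≤ (a : ℝ) ^ 2)]
        _ ≤ C0 * (1 + ‖x‖) ^ D * ‖x - y‖ + a * (C1 * (1 + ‖x‖) ^ D * ‖x - y‖)
            + (a : ℝ) ^ 2 * (C2 * (1 + ‖x‖) ^ D * ‖x - y‖) := by gcongr
        _ = _ := by rw [hCp]; ring
    · intro n
      have h1 := hp0 (fun i => (n i : ℝ))
      rw [hcast] at h1 ⊢
      have h2 : (0 : ℤ) ≤ aeval n p0 + a * aeval n p1 + (a : ℤ) ^ 2 * aeval n p2 := by
        exact_mod_cast h1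
      have h3 : aeval n p0 + a * aeval n p1 + (a : ℤ) ^ 2 * aeval n p2 ≠ 0 := fun h0 =>
        hPa ((hPk a).2 ⟨n, h0⟩)
      have h4 : (1 : ℤ) ≤ aeval n p0 + a * aeval n p1 + (a : ℤ) ^ 2 * aeval n p2 := by omega
      exact_mod_cast h4
  · intro hL
    obtain ⟨nn, hnn'⟩ := (hPk a).1 hPa
    have hn0 : p a (fun i => (nn i : ℝ)) = 0 := by rw [hcast, hnn']; simp
    apply not_lyapunov (hHom a) nn hn0
    refine LyapunovStable.map A.symm (fun x => ?_) hL
    apply A.injective
    rw [← hfield a, A.apply_symm_apply, A.apply_symm_apply]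

open Nat.Partrec in
/-- the halting set as a set of natural numbers -/
def haltSet (a : ℕ) : Prop := (Code.eval (Denumerable.ofNat Code a) 0).Dom

open Nat.Partrec in
theorem haltSet_re : REPred haltSet := by
  have h : Partrec fun a : ℕ => Code.eval (Denumerable.ofNat Code a) 0 :=
    Code.eval_part.comp (Primrec.ofNat Code).to_comp (Computable.const 0)
  exact h.dom_re

open Nat.Partrec in
theorem haltSet_not_computable : ¬ ComputablePred haltSet := by
  intro h
  apply ComputablePred.halting_problem 0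
  obtain ⟨inst, hc⟩ := h
  have h2 : Computable fun c : Code => decide (haltSet (Encodable.encode c)) :=
    hc.comp Computable.encode
  refine ⟨fun c => Classical.dec _, h2.of_eq fun c => ?_⟩
  simp [haltSet]

/-- any property between global asymptotic stability and Lyapunov stability is undecidable -/
theorem undecidable : ∃ n d₀ : ℕ, ∀ d, d₀ ≤ d →
    ∀ S : (EuclideanSpace ℝ (Fin n) → EuclideanSpace ℝ (Fin n)) → Prop,
      (∀ f, GloballyAsymptoticallyStable f → S f) → (∀ f, S f → LyapunovStable f) →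
      ¬ DecidableIn n d S := by
  obtain ⟨n, d₀, L0, L1, L2, hv, hs, hu⟩ := reduction haltSet_re
  refine ⟨n, d₀, fun d hd S h1 h2 ⟨A, hA, hAS⟩ => ?_⟩
  have hv' : ∀ a, Valid n d (La L0 L1 L2 a) := fun a p hp =>
    ⟨(hv a p hp).1, (hv a p hp).2.1, (hv a p hp).2.2.1, (hv a p hp).2.2.2.trans hd⟩
  have h3 : Computable fun a : ℕ => !(A (n, La L0 L1 L2 a)) :=
    (Primrec.not.to_comp).comp (hA.comp ((Computable.const n).pair (La_computable L0 L1 L2)))
  apply haltSet_not_computable
  refine ⟨fun a => Classical.dec _, h3.of_eq fun a => ?_⟩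
  have h4 := hAS _ (hv' a)
  by_cases hP : haltSet a
  · have : ¬ (A (n, La L0 L1 L2 a) = true) := fun h => hu a hP (h2 _ (h4.1 h))
    simp [hP, this]
  · have : A (n, La L0 L1 L2 a) = true := h4.2 (h1 _ (hs a hP))
    simp [hP, this]

end Pool.Agent.H152Z.Stab
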